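import Pool.Agent.J4H1.LG.Zeta7
import Pool.Agent.J4H1.LG.L
import Pool.Agent.J4H1.LG.Norm
import Pool.Agent.J4H34.AR.R4

/-!
# The Grand Lindelöf Hypothesis and the de Bruijn-Newman flow

Let `ξ(s) = N^(s/2) Λ(s, π)` be the completed standard L-function of a cuspidal automorphic
representation `π` of `GL_m`, let `C(t) = C(π, t)` be the analytic conductor at height `t`, and let
`ξ_τ = exp(τ d²/ds²) ξ` be its de Bruijn-Newman flow.  In the window `|Im s - T| ≤ 1` the function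
`ξ_τ` has about `(1/π) log C(T)` zeros, and by de Bruijn the zeros move towards the critical line when
`τ` grows; all of them are on the line at the time `τ = κ / log C(T)`, `κ > 1`.  We prove:

* The size of `L(s, π)` to the right of the critical line is **equivalent** to the zeros of the flow
  being almost all on the line: for `κ > 0`,
  `L(1/2 + r + iT) ≪ C(T)^(max(κ - r, 0)²/(4κ) + ε)`, `0 ≤ r ≤ 1/2`,
  if and only if for every `κ' > κ`, at all times `τ ≥ κ' / log C(T)`, only `o(log C(T))` zeros of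
  `ξ_τ` with `|Im s - T| ≤ 1` are not on the line; it even suffices that only `o(log C(T))` zeros have
  distance `≥ δ` from the line, for every `δ > 0`.
* The Grand Lindelöf Hypothesis holds if and only if this is true for every `κ > 0`.

The statements are uniform in `π`: they hold for any family of L-functions of degree `m` satisfying
the standard properties, in particular for the family of all cuspidal `π` of `GL_m`; the first one
has local forms for single values of `L`.  The standard properties are proved here for all primitive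
Dirichlet characters and all primitive ray class characters (of conductor not `(1)`) of number fields
of every degree.  The Riemann zeta function, whose completed function has poles, is treated
separately, with Riemann's `ξ`.

Proof (modules `Pool.Agent.J4H1.LG` and `Pool.Agent.J4H1.LH`, with W. and other modules of the project HF of
the starting files): `ξ_τ` is a Gaussian average of `ξ` along horizontal lines, and `ξ` is the inverse
average along vertical lines; a three circles theorem with few zeros turns few zeros into a bound for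
`ξ_τ`, and the inverse average into the bound for `L`.  Conversely, the functional equation gives
`ξ_τ(1/2 + iy) = A(y) + ε conj A(y)` with the half-line average `A`, which has few zeros near the line;
the variation of its argument produces almost all the zeros of `ξ_τ` allowed by Jensen's formula.
-/

set_option autoImplicit false

namespace Pool.Agent.Results.MP_52e316_nt.FlowCriterion

open Complex
open scoped ComplexConjugate

/-! ### L-functions -/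

/-- the analytic conductor at height `t` -/
noncomputable def conductor {m : ℕ} (N : ℝ) (μ : Fin m → ℂ) (t : ℝ) : ℝ :=
  N * ∏ j, (1 + ‖(t : ℂ) * I - μ j‖)

/-- The terms `log p |∑_j α_j(p)^k|² p^(-kσ)`, indexed by the primes `p` and by `k - 1`. -/
noncomputable def rsTerm {m : ℕ} (α : Fin m → ℕ → ℂ) (σ : ℝ) (x : Nat.Primes × ℕ) : ℝ :=
  Real.log (x.1 : ℕ) * ‖∑ j, α j x.1 ^ (x.2 + 1)‖ ^ 2 * (((x.1 : ℕ) ^ (x.2 + 1) : ℕ) : ℝ) ^ (-σ)

/-- The analytic data of the standard L-function of a unitary cuspidal automorphic representation `π` of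
`GL_m` over the rationals (not of the form `|.|^(it)` on `GL_1`): conductor `N`, archimedean
parameters `μ j`, Satake parameters `α j p`, root number `ε`, completed L-function `Λ`.  All these
properties are known for all such `π` (Godement-Jacquet, Jacquet-Shalika; the last one, where `K`
depends on `m` only, is the bound for the logarithmic derivative of `L(s, π × π~)` at `s = σ`, applied
to the twists of `π` by `|det|^(it)`). -/
structure StandardData {m : ℕ} (K N : ℝ) (μ : Fin m → ℂ) (α : Fin m → ℕ → ℂ) (ε : ℂ) (Λ : ℂ → ℂ) :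
    Prop where
  /-- the conductor -/
  one_le : 1 ≤ N
  /-- the bound of Jacquet and Shalika at infinity -/
  re_le : ∀ j, (μ j).re ≤ 1 / 2
  /-- the bound of Jacquet and Shalika at the primes -/
  norm_le : ∀ j, ∀ p : ℕ, p.Prime → ‖α j p‖ ≤ Real.sqrt p
  /-- the root number -/
  norm_eq : ‖ε‖ = 1
  /-- the completed L-function is entire -/
  entire : Differentiable ℂ Λ
  /-- `Λ(s) = ∏_j Γ_ℝ(s - μ_j) ∏_p ∏_j (1 - α_j(p) p^(-s))⁻¹`, where the product converges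
  absolutely because of `norm_le` -/
  euler : ∀ s : ℂ, 3 / 2 < s.re → Λ s = (∏ j, Gammaℝ (s - μ j)) *
    ∏' p : Nat.Primes, ∏ j, (1 - α j p * (p : ℂ) ^ (-s))⁻¹
  /-- `Λ(s, π) = ε N^(1/2 - s) Λ(1 - s, π~)` with `Λ(s, π~) = conj Λ(conj s, π)` -/
  fe : ∀ s : ℂ, Λ s = ε * (N : ℂ) ^ (1 / 2 - s) * conj (Λ (1 - conj s))
  /-- at most exponential growth in vertical strips (in fact `Λ` is bounded there) -/
  growth : ∀ a b : ℝ, ∃ M, ∀ s : ℂ, a ≤ s.re → s.re ≤ b → ‖Λ s‖ ≤ Real.exp (M * (1 + |s.im|))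
  /-- the Rankin-Selberg bound -/
  rankin : ∀ σ : ℝ, 1 < σ → σ ≤ 2 → ∀ t : ℝ, Summable (rsTerm α σ) ∧
    ∑' x, rsTerm α σ x ≤ K * (1 / (σ - 1) + 1 + Real.log (conductor N μ t))

/-- The L-function `L(s) = Λ(s) / ∏_j Γ_ℝ(s - μ_j)`, continued analytically (an entire function). -/
noncomputable def Lfun {m : ℕ} (μ : Fin m → ℂ) (Λ : ℂ → ℂ) (s : ℂ) : ℂ :=
  Λ s * ∏ j, (Gammaℝ (s - μ j))⁻¹

/-- `ξ(s) = N^(s/2) Λ(s)`, so that `ξ(s) = ε conj (ξ(1 - conj s))`. -/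
noncomputable def xi (N : ℝ) (Λ : ℂ → ℂ) (s : ℂ) : ℂ := (N : ℂ) ^ (s / 2) * Λ s

/-- Riemann's `ξ(s) = s (s - 1) π^(-s/2) Γ(s/2) ζ(s) / 2` -/
noncomputable def xiZeta (s : ℂ) : ℂ := (s * (s - 1) * completedRiemannZeta₀ s + 1) / 2

/-! ### The flow and the criterion -/

/-- The flow `F_τ = exp(τ d²/ds²) F`, as a Gaussian average. -/
noncomputable def flow (F : ℂ → ℂ) (τ : ℝ) (s : ℂ) : ℂ :=
  ((Real.sqrt (4 * Real.pi * τ))⁻¹ : ℝ) *
    ∫ v : ℝ, F (s + v) * (Real.exp (-(v ^ 2 / (4 * τ))) : ℝ)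

/-- The zeros of `F` in `A`, counted with multiplicity, are at most `c` in number. -/
def AtMost (F : ℂ → ℂ) (A : Set ℂ) (c : ℝ) : Prop :=
  ∀ S : Finset ℂ, (∀ z ∈ S, F z = 0 ∧ z ∈ A) → ∑ z ∈ S, (analyticOrderNatAt F z : ℝ) ≤ c

section properties

variable {ι : Type} (L ξ : ι → ℂ → ℂ) (C : ι → ℝ → ℝ)

/-- The size: `L(1/2 + r + it) ≪ C(t)^(max(κ - r, 0)²/(4κ) + ε)` for `0 ≤ r ≤ 1/2`, `|t| ≥ t₀`. -/
def Size (t₀ κ : ℝ) : Prop := ∀ ε : ℝ, 0 < ε → ∃ B : ℝ, ∀ (i : ι) (t r : ℝ), t₀ ≤ |t| → 0 ≤ r →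
  r ≤ 1 / 2 → ‖L i (1 / 2 + r + t * I)‖ ≤ B * C i t ^ (max (κ - r) 0 ^ 2 / (4 * κ) + ε)

/-- The Lindelöf Hypothesis: `L(1/2 + it) ≪ C(t)^ε`. -/
def Lindelof : Prop := ∀ ε : ℝ, 0 < ε → ∃ B : ℝ, ∀ (i : ι) (t : ℝ),
  ‖L i (1 / 2 + t * I)‖ ≤ B * C i t ^ ε

/-- From the time `κ / log C(T)` on, only `o(log C(T))` zeros of the flow with `|Im s - T| ≤ 1` are
not on the critical line and have distance at least `δ` from it (for `δ = 0` the second condition
is void). -/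
def Few (κ δ : ℝ) : Prop := ∀ ε : ℝ, 0 < ε → ∃ C₀ : ℝ, ∀ (i : ι) (T τ : ℝ),
  C₀ ≤ Real.log (C i T) → 0 < τ → τ ≤ 1 → κ ≤ τ * Real.log (C i T) →
    AtMost (flow (ξ i) τ)
      {s : ℂ | s.re ≠ 1 / 2 ∧ δ ≤ |s.re - 1 / 2| ∧ |s.im - T| ≤ 1} (ε * Real.log (C i T))

/-- The criterion. -/
structure Criterion (t₀ : ℝ) : Prop where
  /-- the size and the zeros off the line -/
  size_iff : ∀ κ : ℝ, 0 < κ → (Size L C t₀ κ ↔ ∀ κ' : ℝ, κ < κ' → Few ξ C κ' 0)
  /-- the size and the zeros far from the line -/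
  size_iff' : ∀ κ : ℝ, 0 < κ → (Size L C t₀ κ ↔ ∀ κ' : ℝ, κ < κ' → ∀ δ : ℝ, 0 < δ → Few ξ C κ' δ)
  /-- the Lindelöf Hypothesis and the zeros off the line -/
  lindelof_iff : Lindelof L C ↔ ∀ κ : ℝ, 0 < κ → Few ξ C κ 0
  /-- the Lindelöf Hypothesis and the zeros far from the line -/
  lindelof_iff' : Lindelof L C ↔ ∀ κ : ℝ, 0 < κ → ∀ δ : ℝ, 0 < δ → Few ξ C κ δ

end properties

/-! ### Ray class characters of number fields -/

section chars

open NumberField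

variable {F : Type} [Field F] [NumberField F]

/-- `x` is totally positive -/
def TotPos (x : 𝓞 F) : Prop := ∀ τ : F →+* ℝ, 0 < τ (x : F)

/-- `ψ` is a primitive ray class character of conductor `𝔣` (times some real places), as a
completely multiplicative function on the ideals, zero on the ideals not prime to `𝔣`. -/
structure IsRayClassChar (𝔣 : Ideal (𝓞 F)) (ψ : Ideal (𝓞 F) →*₀ ℂ) : Prop where
  ne_bot : 𝔣 ≠ ⊥
  supp : ∀ 𝔞 : Ideal (𝓞 F), 𝔞 ≠ ⊥ → (ψ 𝔞 ≠ 0 ↔ IsCoprime 𝔞 𝔣)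
  ray : ∀ x : 𝓞 F, x ≠ 0 → x - 1 ∈ 𝔣 → TotPos x → ψ (Ideal.span {x}) = 1
  prim : ∀ 𝔤 : Ideal (𝓞 F), 𝔤 ∣ 𝔣 → 𝔤 ≠ 𝔣 →
    ∃ x : 𝓞 F, x - 1 ∈ 𝔤 ∧ TotPos x ∧ IsCoprime (Ideal.span {x}) 𝔣 ∧ ψ (Ideal.span {x}) ≠ 1

end chars

/-! ### Lemmas -/

lemma size_zero {ι : Type} (L : ι → ℂ → ℂ) (C : ι → ℝ → ℝ) (κ : ℝ) :
    Size L C 0 κ ↔ J4H1.LH.Size L C κ :=
  ⟨fun h ε hε => (h ε hε).imp fun _ HB i t r h1 h2 => HB i t r (abs_nonneg t) h1 h2,
    fun h ε hε => (h ε hε).imp fun _ HB i t r _ h1 h2 => HB i t r h1 h2⟩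

lemma size_zeta {κ : ℝ} (hκ : 0 < κ) :
    Size (fun _ : Unit => riemannZeta) (fun _ t => 1 + |t|) 1 κ ↔ J4H1.LG.SizeZ κ := by
  have he0 : ∀ r ε : ℝ, 0 < ε → 0 ≤ max (κ - r) 0 ^ 2 / (4 * κ) + ε := fun r ε hε => by positivity
  have he1 : ∀ r : ℝ, 0 ≤ r → max (κ - r) 0 ^ 2 / (4 * κ) ≤ κ / 4 := fun r hr => by
    rw [div_le_iff₀ (by positivity)]
    have h3 : max (κ - r) 0 ≤ κ := max_le (by linarith) hκ.le
    have h4 : max (κ - r) 0 ^ 2 ≤ κ ^ 2 := pow_le_pow_left₀ (le_max_right _ _) h3 2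
    nlinarith
  constructor
  · intro h ε hε
    obtain ⟨B, HB⟩ := h ε hε
    refine ⟨|B| * 2 ^ (κ / 4 + ε), fun t r ht hr0 hr => ?_⟩
    have h1 := HB () t r ht hr0 hr
    obtain ⟨e, he⟩ : ∃ e : ℝ, e = max (κ - r) 0 ^ 2 / (4 * κ) + ε := ⟨_, rfl⟩
    have hee : 0 ≤ e := by rw [he]; exact he0 r ε hε
    have hee1 : e ≤ κ / 4 + ε := by rw [he]; linarith [he1 r hr0]
    simp only at h1
    rw [← he] at h1 ⊢
    have h2 : (1 + |t|) ^ e ≤ (2 * |t|) ^ e := Real.rpow_le_rpow (by positivity) (by linarith) hee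
    rw [Real.mul_rpow (by norm_num) (abs_nonneg t)] at h2
    have h3 : (2 : ℝ) ^ e ≤ 2 ^ (κ / 4 + ε) := Real.rpow_le_rpow_of_exponent_le (by norm_num) hee1
    have h4 : 0 ≤ |t| ^ e := Real.rpow_nonneg (abs_nonneg t) _
    calc ‖riemannZeta (1 / 2 + r + t * I)‖ ≤ B * (1 + |t|) ^ e := h1
      _ ≤ |B| * (1 + |t|) ^ e := mul_le_mul_of_nonneg_right (le_abs_self B) (by positivity)
      _ ≤ |B| * (2 ^ (κ / 4 + ε) * |t| ^ e) := by
          apply mul_le_mul_of_nonneg_left _ (abs_nonneg B)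
          exact h2.trans (mul_le_mul_of_nonneg_right h3 h4)
      _ = _ := by ring
  · intro h ε hε
    obtain ⟨B, HB⟩ := h ε hε
    refine ⟨|B|, fun _ t r ht hr0 hr => ?_⟩
    have h1 := HB t r ht hr0 hr
    have h2 : |t| ^ (max (κ - r) 0 ^ 2 / (4 * κ) + ε) ≤ (1 + |t|) ^ (max (κ - r) 0 ^ 2 / (4 * κ) + ε) :=
      Real.rpow_le_rpow (abs_nonneg t) (by linarith) (he0 r ε hε)
    calc ‖riemannZeta (1 / 2 + r + t * I)‖ ≤ B * |t| ^ (max (κ - r) 0 ^ 2 / (4 * κ) + ε) := h1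
      _ ≤ |B| * |t| ^ (max (κ - r) 0 ^ 2 / (4 * κ) + ε) :=
          mul_le_mul_of_nonneg_right (le_abs_self B) (Real.rpow_nonneg (abs_nonneg t) _)
      _ ≤ _ := mul_le_mul_of_nonneg_left h2 (abs_nonneg B)

lemma xiZeta_eq : (fun _ : Unit => xiZeta) = J4H1.LG.XZ := by
  funext _ s
  unfold xiZeta J4H1.LG.XZ J4H1.JP.XX J4H1.JP.Xi
  have e1 : (1 / 2 + (s - 1 / 2) : ℂ) = s := by ring
  rw [e1]
  ring

open NumberField in
theorem result :
    -- the criterion for all families of L-functions, and the form of the problem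
    (∀ (m : ℕ) (K : ℝ) (ι : Type) (N : ι → ℝ) (μ : ι → Fin m → ℂ) (α : ι → Fin m → ℕ → ℂ) (ε : ι → ℂ)
      (Λ : ι → ℂ → ℂ), 1 ≤ m → 0 ≤ K → (∀ i, StandardData K (N i) (μ i) (α i) (ε i) (Λ i)) →
      Criterion (fun i => Lfun (μ i) (Λ i)) (fun i => xi (N i) (Λ i))
        (fun i => conductor (N i) (μ i)) 0 ∧
      ((∀ i, ∑ j, (μ i j).im = 0) →
        (Lindelof (fun i => Lfun (μ i) (Λ i)) (fun i t => (1 + |t|) * (N i * ∏ j, (1 + ‖μ i j‖))) ↔
          ∀ κ : ℝ, 0 < κ → Few (fun i => xi (N i) (Λ i)) (fun i => conductor (N i) (μ i)) κ 0))) ∧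
    -- the criterion for zeta
    Criterion (fun _ : Unit => riemannZeta) (fun _ => xiZeta) (fun _ t => 1 + |t|) 1 ∧
    -- few zeros of the flow far from the line give the size of the L-function (local form)
    (∀ (m : ℕ) (K κ ε₀ : ℝ), 1 ≤ m → 0 ≤ K → 0 < κ → 0 < ε₀ → ∃ δ R C₀ : ℝ, 0 < δ ∧
      ∀ (N : ℝ) (μ : Fin m → ℂ) (α : Fin m → ℕ → ℂ) (ε : ℂ) (Λ : ℂ → ℂ), StandardData K N μ α ε Λ →
      ∀ T : ℝ, C₀ ≤ Real.log (conductor N μ T) →
        AtMost (flow (xi N Λ) (κ / Real.log (conductor N μ T)))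
          {s : ℂ | δ ≤ |s.re - 1 / 2| ∧ |s.im - T| ≤ R} (δ * Real.log (conductor N μ T)) →
        ∀ r : ℝ, 0 ≤ r → r ≤ 1 / 2 → ‖Lfun μ Λ (1 / 2 + r + T * I)‖ ≤
          conductor N μ T ^ (max (κ - r) 0 ^ 2 / (4 * κ) + ε₀)) ∧
    -- the size of the L-function gives few zeros of the flow off the line (local form)
    (∀ (m : ℕ) (K κ κ' ε₀ : ℝ), 1 ≤ m → 0 ≤ K → 0 < κ → κ < κ' → 0 < ε₀ → ∃ δ R C₀ : ℝ, 0 < δ ∧
      ∀ (N : ℝ) (μ : Fin m → ℂ) (α : Fin m → ℕ → ℂ) (ε : ℂ) (Λ : ℂ → ℂ), StandardData K N μ α ε Λ →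
      ∀ T : ℝ, C₀ ≤ Real.log (conductor N μ T) →
        (∀ t r : ℝ, |t - T| ≤ R → 0 ≤ r → r ≤ 1 / 2 → ‖Lfun μ Λ (1 / 2 + r + t * I)‖ ≤
          conductor N μ t ^ (max (κ - r) 0 ^ 2 / (4 * κ) + δ)) →
        ∀ τ : ℝ, 0 < τ → τ ≤ 1 → κ' ≤ τ * Real.log (conductor N μ T) →
          AtMost (flow (xi N Λ) τ) {s : ℂ | s.re ≠ 1 / 2 ∧ |s.im - T| ≤ 1}
            (ε₀ * Real.log (conductor N μ T))) ∧
    -- all primitive Dirichlet characters satisfy `StandardData`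
    (∀ (q : ℕ) [NeZero q] (χ : DirichletCharacter ℂ q), 1 < q → χ.IsPrimitive →
      ∃ μ : Fin 1 → ℂ, ‖μ 0‖ ≤ 1 ∧ StandardData 24 (q : ℝ) μ (fun _ p => χ (p : ZMod q))
        (DirichletCharacter.rootNumber χ) (DirichletCharacter.completedLFunction χ) ∧
        ∀ s, Lfun μ (DirichletCharacter.completedLFunction χ) s = DirichletCharacter.LFunction χ s) ∧
    -- all primitive ray class characters of number fields, of conductor `≠ (1)`, satisfy it
    (∀ (n : ℕ) (F : Type) [Field F] [NumberField F], Module.finrank ℚ F = n →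
      ∀ (𝔣 : Ideal (𝓞 F)) (ψ : Ideal (𝓞 F) →*₀ ℂ), 𝔣 ≠ ⊤ → IsRayClassChar 𝔣 ψ →
      ∃ (μ : Fin n → ℂ) (α : Fin n → ℕ → ℂ) (ε : ℂ) (Λ : ℂ → ℂ), (∀ j, μ j = 0 ∨ μ j = -1) ∧
        StandardData (24 * n ^ 2) (Ideal.absNorm 𝔣 * |(discr F : ℝ)|) μ α ε Λ ∧
        ∀ s : ℂ, 1 < s.re → Lfun μ Λ s =
          ∑' 𝔞 : Ideal (𝓞 F), ψ 𝔞 * ((Ideal.absNorm 𝔞 : ℕ) : ℂ) ^ (-s)) := by
  have key : ∀ {m : ℕ} {K N : ℝ} {μ : Fin m → ℂ} {α : Fin m → ℕ → ℂ} {ε : ℂ} {Λ : ℂ → ℂ},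
      StandardData K N μ α ε Λ → J4H34.HF.DR K N μ α ε Λ := fun d =>
    ⟨⟨d.one_le, d.re_le, d.norm_le, d.norm_eq, d.entire, d.euler, d.fe, d.growth⟩, d.rankin⟩
  have unkey : ∀ {m : ℕ} {K N : ℝ} {μ : Fin m → ℂ} {α : Fin m → ℕ → ℂ} {ε : ℂ} {Λ : ℂ → ℂ},
      J4H34.HF.DR K N μ α ε Λ → StandardData K N μ α ε Λ := fun d =>
    ⟨d.dat.one_le, d.dat.re_le, d.dat.norm_le, d.dat.norm_eq, d.dat.entire, d.dat.euler, d.dat.fe,
      d.dat.bdd, d.rs⟩
  have lin : ∀ {ι : Type} (L : ι → ℂ → ℂ) (C : ι → ℝ → ℝ), Lindelof L C ↔ J4H1.LH.LineBound L C 0 := by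
    intro ι L C
    have e : ∀ ε : ℝ, 0 + ε = ε := fun ε => zero_add ε
    constructor
    · intro h ε hε
      rw [e]
      exact h ε hε
    · intro h ε hε
      have h1 := h ε hε
      rw [e] at h1
      exact h1
  refine ⟨fun m K ι N μ α ε Λ hm hK hd => ⟨?_, fun hμ => ?_⟩, ?_, fun m K κ ε₀ hm hK hκ hε₀ => ?_,
    fun m K κ κ' ε₀ hm hK hκ hκκ hε₀ => ?_, fun q _ χ hq hχ => ?_, fun n F _ _ hn 𝔣 ψ htop hψ => ?_⟩
  · have hP := J4H1.LG.cls_dr (m := m) (K := K) hm hK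
    have hD : ∀ i, J4H1.LG.PD K (N i) (μ i) (Λ i) := fun i => ⟨α i, ε i, key (hd i)⟩
    refine
      { size_iff := fun κ hκ => ?_
        size_iff' := fun κ hκ => ?_
        lindelof_iff := ?_
        lindelof_iff' := ?_ }
    · rw [size_zero]
      exact (J4H1.LG.size_iff J4H1.LG.allS hP hD hκ).1
    · rw [size_zero]
      exact (J4H1.LG.size_iff J4H1.LG.allS hP hD hκ).2
    · rw [lin]
      exact (J4H1.LG.lindelof_iff J4H1.LG.allS hP hD).1
    · rw [lin]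
      exact (J4H1.LG.lindelof_iff J4H1.LG.allS hP hD).2
  · have hP := J4H1.LG.cls_dr (m := m) (K := K) hm hK
    have hD : ∀ i, J4H1.LG.PD K (N i) (μ i) (Λ i) := fun i => ⟨α i, ε i, key (hd i)⟩
    exact (J4H1.LG.lindelofQ_iff (L := fun i => J4H1.LH.Lf (μ i) (Λ i)) hm
      (fun i => (hd i).one_le) hμ).trans (J4H1.LG.lindelof_iff J4H1.LG.allS hP hD).1
  · have hb : Lindelof (fun _ : Unit => riemannZeta) (fun _ t => 1 + |t|) ↔ J4H1.LG.LineZ 0 := by
      rw [lin]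
      exact ⟨fun h ε hε => (h ε hε).imp fun B HB t => HB () t,
        fun h ε hε => (h ε hε).imp fun B HB _ t => HB t⟩
    rw [xiZeta_eq]
    refine
      { size_iff := fun κ hκ => ?_
        size_iff' := fun κ hκ => ?_
        lindelof_iff := ?_
        lindelof_iff' := ?_ }
    · rw [size_zeta hκ]
      exact (J4H1.LG.zeta_size hκ).1
    · rw [size_zeta hκ]
      exact (J4H1.LG.zeta_size hκ).2
    · rw [hb]
      exact J4H1.LG.zeta_line.1
    · rw [hb]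
      exact J4H1.LG.zeta_line.2
  · obtain ⟨δ, R, C₀, hδ, H⟩ := J4H1.LG.local_size J4H1.LG.allS (J4H1.LG.cls_dr (m := m) hm hK) hκ hε₀
    exact ⟨δ, R, C₀, hδ, fun N μ α ε Λ d => H N μ Λ ⟨α, ε, key d⟩⟩
  · obtain ⟨δ, R, C₀, hδ, H⟩ := J4H1.LG.local_few J4H1.LG.allS (J4H1.LG.cls_dr (m := m) hm hK) hκ hκκ hε₀
    exact ⟨δ, R, C₀, hδ, fun N μ α ε Λ d => H N μ Λ ⟨α, ε, key d⟩⟩
  · refine ⟨_, H353.F.aa_norm_le χ, unkey (J4H34.HF.dr_dir hq hχ), fun s => ?_⟩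
    rw [DirichletCharacter.LFunction_eq_completed_div_gammaFactor χ s (Or.inr (by omega)),
      H370.DL.gammaFactor_eq]
    simp [Lfun, div_eq_mul_inv]
  · subst hn
    have hp : Pool.Agent.Y773.G.IsPrimChar F 𝔣 ψ := ⟨hψ.ne_bot, hψ.supp, hψ.ray, hψ.prim⟩
    obtain ⟨e, he⟩ := J4H34.AR.isModChar hp htop
    obtain ⟨-, μ, α, ε, Λ, -, -, hd, -, -, -, -, -, hμ, hΛ⟩ := J4H34.AR.ray_dr2 hp he
    have hc : J4H34.AR.cnd 𝔣 = (Ideal.absNorm 𝔣 : ℝ) * |(NumberField.discr F : ℝ)| := by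
      rw [J4H34.AR.cnd_eq]
      push_cast
      rw [Nat.cast_natAbs]
      push_cast
      rfl
    rw [hc] at hd
    refine ⟨μ, α, ε, Λ, hμ, unkey hd, fun s hs => ?_⟩
    have hG : ∀ j, Gammaℝ (s - μ j) ≠ 0 := fun j => by
      refine Gammaℝ_ne_zero_of_re_pos ?_
      rcases hμ j with h | h <;> rw [h] <;> simp <;> linarith
    unfold Lfun
    rw [hΛ s hs, Finset.prod_inv_distrib]
    have h1 : (∏ j, Gammaℝ (s - μ j)) ≠ 0 := Finset.prod_ne_zero_iff.2 fun j _ => hG j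
    field_simp
    rfl

end Pool.Agent.Results.MP_52e316_nt.FlowCriterion
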