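import Pool.Agent.J4H31.SA.ZetC
import Pool.Agent.J4H1.LG.Norm
import Pool.Agent.J4H34.AR.R4

/-!
# The Grand Lindelöf Hypothesis and one-sided bounds for the horizontal integral of `log |L|`

Let `L(s, π)` be the standard L-function of a cuspidal automorphic representation `π` of `GL_m`, let
`C(t) = C(π, t)` be the analytic conductor at height `t`, and let
`J(t) = ∫_{1/2}^2 log |L(σ + it, π)| dσ`.  Up to a bounded error this is `π S_1(t, π)`, the integral of
the argument function of the zeros, and it is known that the Lindelöf Hypothesis for zeta is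
equivalent to `S_1(t) = o(log t)`, on both sides and for every `t` (Titchmarsh, Chapter XIII).  We
prove, uniformly in `π`, that an upper bound alone is sufficient, that it is sufficient outside
sets of small measure, and we find the exponents.  The following are equivalent:

* `L(1/2 + it) ≪ C(t)^ε` for every `ε > 0` (the Lindelöf Hypothesis in the conductor aspect);
* for every `ε > 0`, `J(t) ≤ ε log C(t)` when `C(t)` is large;
* for all `ε, δ > 0`, `J(t) ≤ ε log C(T)` for `|t - T| ≤ 1` outside a set of measure at most `δ`, when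
  `C(T)` is large;
* `∫_{T-1}^{T+1} |J(t)| dt = o(log C(T))`.

A subconvex bound `L(1/2 + it) ≪ C(t)^(θ + ε)`, `θ < 1/4`, holds if and only if `J(t) ≤ a log C(t)` for
some `a < 1/16` and large `C(t)`.  More precisely, the exponent `θ` gives every `a > θ/4`, and
the exponent `a` gives `θ = √a` if `1/64 ≤ a ≤ 1/16` (this is the best possible consequence of
the functional equation and of subharmonicity: consider `max(θ - x/2, 0)`, `x = Re s - 1/2`), and
`θ = (3/4) a^(1/3)` for all small `a`.  Bounds for `J` outside sets of small measure are always bounds for all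
`t`.  There are local forms: if `|L(1/2 + iT)| ≥ C(T)^κ`, then `J(t) > a log C(T)` on a set of measure
at least `δ > 0` in `|t - T| ≤ B`, if `(κ, a)` is in the region `Law`, where `B, δ` depend
only on `κ, a, m`.

Proof (modules `Pool.Agent.J4H31.SA`): let `u = log |F|`, where `F` is the completed L-function near the height
`T`, normalised by a constant and an exponential factor, so that `u = O(1)` (compared with
`log C`) to the right of `Re s = 1` and `u(-x, y) = u(x, y) + x log C`.  The Poisson inequality for the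
strips `|Re z - s| < h`, integrated over horizontal segments, gives inequalities for the averages
of the integrals of `u` with the exit kernels of the strips; three windows around `-2x, 0, 2x` and
the doubling of windows give the first part of `Law`, and a convexity argument from the right gives the
second part.  The same inequality for the interval `(0, 3/2)` shows that `J` is almost subharmonic in
the mean, which gives the forms in measure.  For zeta the pointwise one-sided criterion (the first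
equivalence) is in the modules `Pool.Agent.Y757.LS`, whose strip inequality and kernels are used here.
-/

set_option autoImplicit false

namespace Pool.Agent.Results.MP_52e316_nt.OneSidedCriterion

open Complex MeasureTheory
open scoped ComplexConjugate

/-! ### L-functions -/

/-- the analytic conductor at height `t` -/
noncomputable def conductor {m : ℕ} (N : ℝ) (μ : Fin m → ℂ) (t : ℝ) : ℝ :=
  N * ∏ j, (1 + ‖(t : ℂ) * I - μ j‖)

/-- The terms `log p |∑_j α_j(p)^k|² p^(-kσ)`, indexed by the primes `p` and by `k - 1`. -/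
noncomputable def rsTerm {m : ℕ} (α : Fin m → ℕ → ℂ) (σ : ℝ) (x : Nat.Primes × ℕ) : ℝ :=
  Real.log (x.1 : ℕ) * ‖∑ j, α j x.1 ^ (x.2 + 1)‖ ^ 2 * (((x.1 : ℕ) ^ (x.2 + 1) : ℕ) : ℝ) ^ (-σ)

/-- The analytic data of the standard L-function of a unitary cuspidal automorphic representation `π` of
`GL_m` over the rationals (not of the form `|.|^(it)` on `GL_1`): conductor `N`, archimedean
parameters `μ j`, Satake parameters `α j p`, root number `ε`, completed L-function `Λ`.  All these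
properties are known for all such `π` (Godement-Jacquet, Jacquet-Shalika; the last one, where `K`
depends on `m` only, is the bound for the logarithmic derivative of `L(s, π × π~)` at `s = σ`, applied
to the twists of `π` by `|det|^(it)`). -/
structure StandardData {m : ℕ} (K N : ℝ) (μ : Fin m → ℂ) (α : Fin m → ℕ → ℂ) (ε : ℂ) (Λ : ℂ → ℂ) :
    Prop where
  /-- the conductor -/
  one_le : 1 ≤ N
  /-- the bound of Jacquet and Shalika at infinity -/
  re_le : ∀ j, (μ j).re ≤ 1 / 2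
  /-- the bound of Jacquet and Shalika at the primes -/
  norm_le : ∀ j, ∀ p : ℕ, p.Prime → ‖α j p‖ ≤ Real.sqrt p
  /-- the root number -/
  norm_eq : ‖ε‖ = 1
  /-- the completed L-function is entire -/
  entire : Differentiable ℂ Λ
  /-- `Λ(s) = ∏_j Γ_ℝ(s - μ_j) ∏_p ∏_j (1 - α_j(p) p^(-s))⁻¹`, where the product converges
  absolutely because of `norm_le` -/
  euler : ∀ s : ℂ, 3 / 2 < s.re → Λ s = (∏ j, Gammaℝ (s - μ j)) *
    ∏' p : Nat.Primes, ∏ j, (1 - α j p * (p : ℂ) ^ (-s))⁻¹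
  /-- `Λ(s, π) = ε N^(1/2 - s) Λ(1 - s, π~)` with `Λ(s, π~) = conj Λ(conj s, π)` -/
  fe : ∀ s : ℂ, Λ s = ε * (N : ℂ) ^ (1 / 2 - s) * conj (Λ (1 - conj s))
  /-- at most exponential growth in vertical strips (in fact `Λ` is bounded there) -/
  growth : ∀ a b : ℝ, ∃ M, ∀ s : ℂ, a ≤ s.re → s.re ≤ b → ‖Λ s‖ ≤ Real.exp (M * (1 + |s.im|))
  /-- the Rankin-Selberg bound -/
  rankin : ∀ σ : ℝ, 1 < σ → σ ≤ 2 → ∀ t : ℝ, Summable (rsTerm α σ) ∧
    ∑' x, rsTerm α σ x ≤ K * (1 / (σ - 1) + 1 + Real.log (conductor N μ t))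

/-- The L-function `L(s) = Λ(s) / ∏_j Γ_ℝ(s - μ_j)`, continued analytically (an entire function). -/
noncomputable def Lfun {m : ℕ} (μ : Fin m → ℂ) (Λ : ℂ → ℂ) (s : ℂ) : ℂ :=
  Λ s * ∏ j, (Gammaℝ (s - μ j))⁻¹

/-- The horizontal integral `J(t) = ∫_{1/2}^2 log |L(σ + it)| dσ`. -/
noncomputable def J (L : ℂ → ℂ) (t : ℝ) : ℝ := ∫ σ in (1 / 2 : ℝ)..2, Real.log ‖L (σ + t * I)‖

/-! ### The criterion -/

/-- The pairs `(κ, a)` for which values `≥ C^κ` of `|L|` on the critical line force values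
`> a log C` of `J`.  For `1/8 ≤ κ ≤ 1/4` this contains all `a < κ²`, for `0 < κ ≤ 1/8` all
`0 ≤ a < 64 κ³ / 27`. -/
def Law (κ a : ℝ) : Prop :=
  (∃ x : ℝ, 1 / 4 < x ∧ x ≤ 1 / 2 ∧ a < x * (κ - x / 4)) ∨
  (∃ δ : ℝ, 0 < δ ∧ δ ≤ 1 / 3 ∧ a * (1 - 2 * δ) < δ ^ 2 * (κ - δ / 4))

section properties

variable {ι : Type} (L : ι → ℂ → ℂ) (C : ι → ℝ → ℝ)

/-- The size on the critical line: `L(1/2 + it) ≪ C(t)^(θ + ε)`. -/
def Bound (θ : ℝ) : Prop := ∀ ε : ℝ, 0 < ε → ∃ B : ℝ, ∀ (i : ι) (t : ℝ),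
  ‖L i (1 / 2 + t * I)‖ ≤ B * C i t ^ (θ + ε)

/-- The one-sided bound `J(t) ≤ a log C(t)`, if `C(t)` is large. -/
def Upper (a : ℝ) : Prop := ∃ C₀ : ℝ, ∀ (i : ι) (t : ℝ), C₀ ≤ Real.log (C i t) →
  J (L i) t ≤ a * Real.log (C i t)

/-- The one-sided bound outside sets of small measure: for every `δ > 0`, if `C(T)` is large, then
`J(t) ≤ a log C(T)` for all `t` in `[T - 1, T + 1]` outside a set of measure at most `δ`. -/
def Mostly (a : ℝ) : Prop := ∀ δ : ℝ, 0 < δ → ∃ C₀ : ℝ, ∀ (i : ι) (T : ℝ),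
  C₀ ≤ Real.log (C i T) →
    volume {t : ℝ | |t - T| ≤ 1 ∧ a * Real.log (C i T) < J (L i) t} ≤ ENNReal.ofReal δ

/-- The two-sided bound in the mean: `∫_{T-1}^{T+1} |J(t)| dt ≤ a log C(T)`, if `C(T)` is large. -/
def Mean (a : ℝ) : Prop := ∃ C₀ : ℝ, ∀ (i : ι) (T : ℝ), C₀ ≤ Real.log (C i T) →
  ∫⁻ t in Set.Icc (T - 1) (T + 1), ENNReal.ofReal |J (L i) t| ≤
    ENNReal.ofReal (a * Real.log (C i T))

/-- The criterion, with exponents. -/
structure Criterion : Prop where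
  /-- the Lindelöf Hypothesis and the one-sided bound -/
  lindelof_upper : Bound L C 0 ↔ ∀ ε : ℝ, 0 < ε → Upper L C ε
  /-- the Lindelöf Hypothesis and the one-sided bound outside sets of small measure -/
  lindelof_mostly : Bound L C 0 ↔ ∀ ε : ℝ, 0 < ε → Mostly L C ε
  /-- the Lindelöf Hypothesis and the bound in the mean -/
  lindelof_mean : Bound L C 0 ↔ ∀ ε : ℝ, 0 < ε → Mean L C ε
  /-- subconvexity and the one-sided bound -/
  subconvex_upper : (∃ θ : ℝ, θ < 1 / 4 ∧ Bound L C θ) ↔ ∃ a : ℝ, a < 1 / 16 ∧ Upper L C a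
  /-- subconvexity and the one-sided bound outside sets of small measure -/
  subconvex_mostly : (∃ θ : ℝ, θ < 1 / 4 ∧ Bound L C θ) ↔ ∃ a : ℝ, a < 1 / 16 ∧ Mostly L C a
  /-- from the size to the one-sided bound -/
  upper_of_bound : ∀ θ a : ℝ, 0 ≤ θ → θ ≤ 1 / 4 → θ / 4 < a → Bound L C θ → Upper L C a
  /-- from the one-sided bound to the size -/
  bound_of_mostly : ∀ κ a : ℝ, 0 ≤ a → Law κ a → Mostly L C a → Bound L C κ
  /-- the square root law -/
  sqrt_law : ∀ a : ℝ, 1 / 64 ≤ a → a ≤ 1 / 16 → (∀ a' : ℝ, a < a' → Mostly L C a') →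
    Bound L C (Real.sqrt a)
  /-- the cube root law -/
  cube_law : ∀ κ : ℝ, 0 ≤ κ → κ ≤ 1 / 8 → (∀ a : ℝ, 64 / 27 * κ ^ 3 < a → Mostly L C a) →
    Bound L C κ
  /-- bounds outside sets of small measure are bounds everywhere -/
  upper_of_mostly : ∀ a a' : ℝ, 0 ≤ a → a < a' → Mostly L C a → Upper L C a'

end properties

/-! ### Ray class characters of number fields -/

section chars

open NumberField

variable {F : Type} [Field F] [NumberField F]

/-- `x` is totally positive -/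
def TotPos (x : 𝓞 F) : Prop := ∀ τ : F →+* ℝ, 0 < τ (x : F)

/-- `ψ` is a primitive ray class character of conductor `𝔣` (times some real places), as a
completely multiplicative function on the ideals, zero on the ideals not prime to `𝔣`. -/
structure IsRayClassChar (𝔣 : Ideal (𝓞 F)) (ψ : Ideal (𝓞 F) →*₀ ℂ) : Prop where
  ne_bot : 𝔣 ≠ ⊥
  supp : ∀ 𝔞 : Ideal (𝓞 F), 𝔞 ≠ ⊥ → (ψ 𝔞 ≠ 0 ↔ IsCoprime 𝔞 𝔣)
  ray : ∀ x : 𝓞 F, x ≠ 0 → x - 1 ∈ 𝔣 → TotPos x → ψ (Ideal.span {x}) = 1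
  prim : ∀ 𝔤 : Ideal (𝓞 F), 𝔤 ∣ 𝔣 → 𝔤 ≠ 𝔣 →
    ∃ x : 𝓞 F, x - 1 ∈ 𝔤 ∧ TotPos x ∧ IsCoprime (Ideal.span {x}) 𝔣 ∧ ψ (Ideal.span {x}) ≠ 1

end chars

/-! ### Lemmas -/

lemma criterion_of {ι : Type} {L : ι → ℂ → ℂ} {C : ι → ℝ → ℝ} (P : J4H31.SA.SP L C) :
    Criterion L C := by
  have hlow : ∀ ε : ℝ, 0 < ε → ∀ {κ a : ℝ}, 0 ≤ a → Law κ a → 0 ≤ κ := fun ε _ κ a ha h => by
    obtain ⟨κ', h1, h2, -⟩ := J4H31.SA.Law.exists_lt ha h
    linarith
  refine
    { lindelof_upper := ⟨fun h ε hε => P.lindelof_upper h hε,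
        fun h => P.lindelof_mostly fun ε hε => P.mostly_all h hε⟩
      lindelof_mostly := ⟨fun h ε hε => P.mostly_all (fun ε hε => P.lindelof_upper h hε) hε,
        fun h => P.lindelof_mostly h⟩
      lindelof_mean := ⟨fun h ε hε => P.lindelof_mean h hε,
        fun h => P.lindelof_mostly fun ε hε => P.mostly_of_mean h hε⟩
      subconvex_upper := ⟨fun h => P.subconvex_upper h,
        fun h => P.subconvex_mostly (P.subconvex_mid h)⟩
      subconvex_mostly := ⟨fun h => P.subconvex_mid (P.subconvex_upper h),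
        fun h => P.subconvex_mostly h⟩
      upper_of_bound := fun θ a hθ hθ1 ha h => P.upper θ hθ hθ1 h a ha
      bound_of_mostly := fun κ a ha h hM => P.crit (hlow 1 one_pos ha h) ha h hM
      sqrt_law := fun a h1 h2 h => P.crit_sqrt h1 h2 h
      cube_law := fun κ h1 h2 h => P.crit_cube h1 h2 h
      upper_of_mostly := fun a a' ha h hM => P.upper_of_mostly ha h hM }

open NumberField in
theorem result :
    -- the criterion for all families of L-functions, and the form of the problem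
    (∀ (m : ℕ) (K : ℝ) (ι : Type) (N : ι → ℝ) (μ : ι → Fin m → ℂ) (α : ι → Fin m → ℕ → ℂ) (ε : ι → ℂ)
      (Λ : ι → ℂ → ℂ), 1 ≤ m → 0 ≤ K → (∀ i, StandardData K (N i) (μ i) (α i) (ε i) (Λ i)) →
      Criterion (fun i => Lfun (μ i) (Λ i)) (fun i => conductor (N i) (μ i)) ∧
      ((∀ i, ∑ j, (μ i j).im = 0) →
        (Bound (fun i => Lfun (μ i) (Λ i)) (fun i t => (1 + |t|) * (N i * ∏ j, (1 + ‖μ i j‖))) 0 ↔
          ∀ ε : ℝ, 0 < ε → Mostly (fun i => Lfun (μ i) (Λ i)) (fun i => conductor (N i) (μ i)) ε))) ∧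
    -- the criterion for zeta
    Criterion (fun _ : Unit => riemannZeta) (fun _ t => 1 + |t|) ∧
    -- local form: large values on the critical line
    (∀ (m : ℕ) (K κ a : ℝ), 1 ≤ m → 0 ≤ K → 0 ≤ a → Law κ a → ∃ B δ C₀ : ℝ, 0 < δ ∧
      ∀ (N : ℝ) (μ : Fin m → ℂ) (α : Fin m → ℕ → ℂ) (ε : ℂ) (Λ : ℂ → ℂ), StandardData K N μ α ε Λ →
      ∀ T : ℝ, C₀ ≤ Real.log (conductor N μ T) →
        conductor N μ T ^ κ ≤ ‖Lfun μ Λ (1 / 2 + T * I)‖ → ENNReal.ofReal δ <
          volume {t : ℝ | |t - T| ≤ B ∧ a * Real.log (conductor N μ T) < J (Lfun μ Λ) t}) ∧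
    -- local form: unconditional lower bound
    (∀ (m : ℕ) (K ε₀ : ℝ), 1 ≤ m → 0 ≤ K → 0 < ε₀ → ∃ B δ C₀ : ℝ, 0 < δ ∧
      ∀ (N : ℝ) (μ : Fin m → ℂ) (α : Fin m → ℕ → ℂ) (ε : ℂ) (Λ : ℂ → ℂ), StandardData K N μ α ε Λ →
      ∀ T : ℝ, C₀ ≤ Real.log (conductor N μ T) → ENNReal.ofReal δ <
          volume {t : ℝ | |t - T| ≤ B ∧ -ε₀ * Real.log (conductor N μ T) < J (Lfun μ Λ) t}) ∧
    -- local form: a bound outside a small set is a bound
    (∀ (m : ℕ) (K a ε₀ : ℝ), 1 ≤ m → 0 ≤ K → 0 ≤ a → 0 < ε₀ → ∃ δ C₀ : ℝ, 0 < δ ∧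
      ∀ (N : ℝ) (μ : Fin m → ℂ) (α : Fin m → ℕ → ℂ) (ε : ℂ) (Λ : ℂ → ℂ), StandardData K N μ α ε Λ →
      ∀ T : ℝ, C₀ ≤ Real.log (conductor N μ T) →
        volume {t : ℝ | |t - T| ≤ 1 ∧ a * Real.log (conductor N μ T) < J (Lfun μ Λ) t} ≤
          ENNReal.ofReal δ →
        J (Lfun μ Λ) T ≤ (a + ε₀) * Real.log (conductor N μ T)) ∧
    -- all primitive Dirichlet characters satisfy `StandardData`
    (∀ (q : ℕ) [NeZero q] (χ : DirichletCharacter ℂ q), 1 < q → χ.IsPrimitive →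
      ∃ μ : Fin 1 → ℂ, ‖μ 0‖ ≤ 1 ∧ StandardData 24 (q : ℝ) μ (fun _ p => χ (p : ZMod q))
        (DirichletCharacter.rootNumber χ) (DirichletCharacter.completedLFunction χ) ∧
        ∀ s, Lfun μ (DirichletCharacter.completedLFunction χ) s = DirichletCharacter.LFunction χ s) ∧
    -- all primitive ray class characters of number fields, of conductor `≠ (1)`, satisfy it
    (∀ (n : ℕ) (F : Type) [Field F] [NumberField F], Module.finrank ℚ F = n →
      ∀ (𝔣 : Ideal (𝓞 F)) (ψ : Ideal (𝓞 F) →*₀ ℂ), 𝔣 ≠ ⊤ → IsRayClassChar 𝔣 ψ →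
      ∃ (μ : Fin n → ℂ) (α : Fin n → ℕ → ℂ) (ε : ℂ) (Λ : ℂ → ℂ), (∀ j, μ j = 0 ∨ μ j = -1) ∧
        StandardData (24 * n ^ 2) (Ideal.absNorm 𝔣 * |(discr F : ℝ)|) μ α ε Λ ∧
        ∀ s : ℂ, 1 < s.re → Lfun μ Λ s =
          ∑' 𝔞 : Ideal (𝓞 F), ψ 𝔞 * ((Ideal.absNorm 𝔞 : ℕ) : ℂ) ^ (-s)) := by
  have key : ∀ {m : ℕ} {K N : ℝ} {μ : Fin m → ℂ} {α : Fin m → ℕ → ℂ} {ε : ℂ} {Λ : ℂ → ℂ},
      StandardData K N μ α ε Λ → J4H34.HF.DR K N μ α ε Λ := fun d =>
    ⟨⟨d.one_le, d.re_le, d.norm_le, d.norm_eq, d.entire, d.euler, d.fe, d.growth⟩, d.rankin⟩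
  have unkey : ∀ {m : ℕ} {K N : ℝ} {μ : Fin m → ℂ} {α : Fin m → ℕ → ℂ} {ε : ℂ} {Λ : ℂ → ℂ},
      J4H34.HF.DR K N μ α ε Λ → StandardData K N μ α ε Λ := fun d =>
    ⟨d.dat.one_le, d.dat.re_le, d.dat.norm_le, d.dat.norm_eq, d.dat.entire, d.dat.euler, d.dat.fe,
      d.dat.bdd, d.rs⟩
  have hQ : ∀ {ι : Type} (L : ι → ℂ → ℂ) (Cp : ι → ℝ),
      Bound L (fun i t => (1 + |t|) * Cp i) 0 ↔ J4H1.LG.LindelofQ L Cp := by
    intro ι L Cp
    have e : ∀ ε : ℝ, 0 + ε = ε := fun ε => zero_add ε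
    constructor
    · intro h ε hε
      have h1 := h ε hε
      rw [e] at h1
      exact h1
    · intro h ε hε
      rw [e]
      exact h ε hε
  refine ⟨fun m K ι N μ α ε Λ hm hK hd => ?_, criterion_of J4H31.SA.sp_zeta,
    fun m K κ a hm hK ha h => ?_, fun m K ε₀ hm hK hε₀ => ?_, fun m K a ε₀ hm hK ha hε₀ => ?_,
    fun q _ χ hq hχ => ?_, fun n F _ _ hn 𝔣 ψ htop hψ => ?_⟩
  · have hD : ∀ i, J4H1.LG.PD K (N i) (μ i) (Λ i) := fun i => ⟨α i, ε i, key (hd i)⟩
    have P := J4H31.SA.sp_ca hm (J4H31.SA.ca_dr (K := K) hm hK) hD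
    have hC : Criterion (fun i => Lfun (μ i) (Λ i)) (fun i => conductor (N i) (μ i)) :=
      criterion_of P
    refine ⟨hC, fun hμ => ?_⟩
    rw [hQ, ← hC.lindelof_mostly]
    exact J4H1.LG.lindelofQ_iff (L := fun i => J4H1.LH.Lf (μ i) (Λ i)) hm
      (fun i => (hd i).one_le) hμ
  · obtain ⟨B, δ, C₀, hδ, H⟩ := J4H31.SA.law_ca hm (J4H31.SA.ca_dr (K := K) hm hK) ha h
    exact ⟨B, δ, C₀, hδ, fun N μ α ε Λ d T hT hL => H N μ Λ ⟨α, ε, key d⟩ T hT hL⟩
  · obtain ⟨B, δ, C₀, hδ, H⟩ := J4H31.SA.lower_ca hm (J4H31.SA.ca_dr (K := K) hm hK) hε₀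
    exact ⟨B, δ, C₀, hδ, fun N μ α ε Λ d T hT => H N μ Λ ⟨α, ε, key d⟩ T hT⟩
  · obtain ⟨δ, C₀, hδ, H⟩ := J4H31.SA.spread_ca hm (J4H31.SA.ca_dr (K := K) hm hK) ha hε₀
    exact ⟨δ, C₀, hδ, fun N μ α ε Λ d T hT hv => H N μ Λ ⟨α, ε, key d⟩ T hT hv⟩
  · refine ⟨_, H353.F.aa_norm_le χ, unkey (J4H34.HF.dr_dir hq hχ), fun s => ?_⟩
    rw [DirichletCharacter.LFunction_eq_completed_div_gammaFactor χ s (Or.inr (by omega)),
      H370.DL.gammaFactor_eq]
    simp [Lfun, div_eq_mul_inv]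
  · subst hn
    have hp : Pool.Agent.Y773.G.IsPrimChar F 𝔣 ψ := ⟨hψ.ne_bot, hψ.supp, hψ.ray, hψ.prim⟩
    obtain ⟨e, he⟩ := J4H34.AR.isModChar hp htop
    obtain ⟨-, μ, α, ε, Λ, -, -, hd, -, -, -, -, -, hμ, hΛ⟩ := J4H34.AR.ray_dr2 hp he
    have hc : J4H34.AR.cnd 𝔣 = (Ideal.absNorm 𝔣 : ℝ) * |(NumberField.discr F : ℝ)| := by
      rw [J4H34.AR.cnd_eq]
      push_cast
      rw [Nat.cast_natAbs]
      push_cast
      rfl
    rw [hc] at hd
    refine ⟨μ, α, ε, Λ, hμ, unkey hd, fun s hs => ?_⟩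
    have hG : ∀ j, Gammaℝ (s - μ j) ≠ 0 := fun j => by
      refine Gammaℝ_ne_zero_of_re_pos ?_
      rcases hμ j with h | h <;> rw [h] <;> simp <;> linarith
    unfold Lfun
    rw [hΛ s hs, Finset.prod_inv_distrib]
    have h1 : (∏ j, Gammaℝ (s - μ j)) ≠ 0 := Finset.prod_ne_zero_iff.2 fun j _ => hG j
    field_simp
    rfl

end Pool.Agent.Results.MP_52e316_nt.OneSidedCriterion
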