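import Pool.Agent.J4H31.W.W22
import Pool.Agent.J4H31.U.U17

/-!
# Mean squares over thin cosets of Hecke characters, and sub-Weyl bounds, for all number fields

Let `K` be any number field, `n = [K : ℚ]`, `p ≥ 7` a prime number and `𝔮 ≠ (1)` an ideal which
divides `(p)^k` and whose prime factors are of degree one and unramified over `p` (any number of
primes, any exponents).  Let `𝔠 ≠ 0` be an ideal prime to `𝔮`.  We consider the primitive, unitary,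
normalised Hecke characters `ψ` of `K` of conductor `𝔠𝔮`, of any infinity type

  `ψ((x)) = ∏_w |x|_w^(i ν_w) (x_w / |x|_w)^(ℓ_w)`   (`x` totally positive, congruent to `1` modulo the
  conductor),

where `w` runs through the infinite places, `x_w ∈ ℂ` is the image of `x` under the embedding of `w`,
`∑ ν_w = 0` and the `ℓ_w` are integers (the signs at the real places are arbitrary).

For `𝔞 ∣ 𝔮` the coset of `ψ` modulo `𝔞` consists of the `ψ' = ψ ω`, of conductor `𝔠𝔮`, with `ω` of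
conductor dividing `𝔞` (times infinite places) and bounded infinity type.  It has about `N(𝔞)`
members.  We prove, without any hypothesis,

* **Mean squares.**  If `𝔮^19 ∣ 𝔞^58` (so `N(𝔞)` may be as small as `N(𝔮)^(19/58)`, `19/58 < 1/3`), then

    `∑_{ψ'} |L(1/2 + it, ψ')|² ≤ C N(𝔠)^4 (p k)^(82 n) N(𝔞)`,

  the sum being over the coset: the Lindelöf hypothesis on average over the coset.
* **Single characters.**  `|L(1/2 + it, ψ)| ≤ C N(𝔠)^2 (p k)^(42 n) N(𝔮)^(19/116)`.  The exponents of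
  the convexity bound and of the Weyl bound are `1/4` and `1/6`; `19/116 < 1/6`.
* **Size of the families.**  The coset has at least `(3/7)^n N(𝔞)` and at most `C N(𝔞)` members (once
  infinity types of size `V₀ = V₀(K)` are allowed); there are primitive characters of every conductor
  `𝔮` as above with infinity type bounded by `V₀`, and products with characters of conductor `𝔠`.
* **Twists.**  If `p` splits completely, `𝔮 = (p)^k`, `ψ` is primitive of conductor `𝔠` and `χ` is a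
  primitive Dirichlet character mod `p^k`, then `ψ ⊗ χ : 𝔟 ↦ ψ(𝔟) χ(N(𝔟))` is one of the characters
  considered here, of conductor `𝔠 (p)^k` and with the infinity type of `ψ`.

Here `|t| ≤ T`, `|ν_w|, |ℓ_w| ≤ V`, and `C` depends only on `K`, `T` and `V`.

Remarks (not part of the formal statement).
* `K` imaginary quadratic: L-functions of holomorphic newforms with complex multiplication and their
  twists; `K` real quadratic: Maass forms of dihedral type; `K` a CM field: Hecke characters of type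
  `A₀`; characters of finite order: all monomial Artin L-functions.  If `K/ℚ` is cyclic of degree `m`,
  say, and the conjugates of `ψ` are different, then `L(s, ψ)` is the L-function of a cuspidal
  representation of `GL_m` over `ℚ`.
* One split prime `𝔭` of an imaginary quadratic field and `𝔮 = 𝔭^k`: the conductor of the newform is
  `|D| N(𝔠) p^k`, and its central character is ramified at `p`: these forms are not twists.
* The logarithms are `(p k)^O(n)`: the result is of interest for the powers of a prime `p` with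
  `p ≤ N(𝔮)^ε`.

Proof.  `L(s, ψ)` is a Mellin transform of theta functions with harmonic polynomials, sums over lattices
of dimension `n`; on the lattice the character is, by the Chinese remainder theorem and a basis
adapted to the prime factors of `𝔮`, a product `∏ χ_i(x_i)` of primitive Dirichlet characters mod
`p^(κ_i)` of the coordinates.  The members of the coset are `ψ_0 ∏ τ_i(x_i)` with `τ_i` mod `p^(a_i)`.
The sum over the `τ_i` is opened (after a dissection of the lattice sum into boxes) and gives the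
congruences `x_i ≡ y_i mod p^(a_i)`; the resulting sums of `χ_i(x_i) conj χ_i(y_i)` are estimated by the
`p`-adic van der Corput method: differencing with shifts divisible by powers of `p` in every
coordinate, classified by their valuations, Poisson summation, and further differencing steps.  Conversely
every character of the classes mod `𝔞` prime to `𝔞` is the finite part of a Hecke character with infinity
type bounded by `V₀` (units theorem), different finite parts give different characters (an infinity type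
with `∑ ν_w = 0` is determined by its values at the totally positive `x ≡ 1`), and at least a fraction
`2^(-n)` of the products with `ψ` is primitive of conductor `𝔠𝔮`.
-/

set_option autoImplicit false

open Complex NumberField

namespace Pool.Agent.Results.MP_52e316_nt.ThinCosetsAllFields

section

variable (K : Type) [Field K] [NumberField K]

/-- `x` is totally positive: positive at all real places of `K`. -/
def TotPos (x : 𝓞 K) : Prop := ∀ σ : K →+* ℝ, 0 < σ (x : K)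

/-- `∏_w |x|_w^(i ν_w) (x_w / |x|_w)^(ℓ_w)`, the product being over the infinite places of `K`, where
`x_w` is the image of `x` under the embedding of `K` in `ℂ` chosen for `w` and `|x|_w` its absolute
value.  (At a real place and for totally positive `x` the second factor is `1`.) -/
noncomputable def arch (ν : InfinitePlace K → ℝ) (l : InfinitePlace K → ℤ) (x : K) : ℂ :=
  Complex.exp (Complex.I * ((∑ w, ν w * Real.log (w x) : ℝ) : ℂ)) *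
    ∏ w : InfinitePlace K, (w.embedding x / ((w x : ℝ) : ℂ)) ^ l w

/-- `ψ`, as a function on the ideals of `K` (zero on the ideals which are not prime to `𝔣`), is a
primitive unitary Hecke character of finite conductor `𝔣` and infinity type `(ν, ℓ)`, with arbitrary
signs at the real places. -/
structure IsHecke (𝔣 : Ideal (𝓞 K)) (ν : InfinitePlace K → ℝ) (l : InfinitePlace K → ℤ)
    (ψ : Ideal (𝓞 K) →*₀ ℂ) : Prop where
  ne_bot : 𝔣 ≠ ⊥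
  supp : ∀ 𝔞 : Ideal (𝓞 K), 𝔞 ≠ ⊥ → (ψ 𝔞 ≠ 0 ↔ IsCoprime 𝔞 𝔣)
  ray : ∀ x : 𝓞 K, x ≠ 0 → x - 1 ∈ 𝔣 → TotPos K x → ψ (Ideal.span {x}) = arch K ν l (x : K)
  prim : ∀ 𝔤 : Ideal (𝓞 K), 𝔤 ∣ 𝔣 → 𝔤 ≠ 𝔣 → ∃ x : 𝓞 K, x ≠ 0 ∧ x - 1 ∈ 𝔤 ∧ TotPos K x ∧
    IsCoprime (Ideal.span {x}) 𝔣 ∧ ψ (Ideal.span {x}) ≠ arch K ν l (x : K)

/-- All primitive Hecke characters of conductor `𝔣` whose infinity type `(ν, ℓ)` is normalised by
`∑ ν_w = 0` and lies in the box `|ν_w| ≤ V`, `|ℓ_w| ≤ V`. -/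
def family (𝔣 : Ideal (𝓞 K)) (V : ℝ) : Set (Ideal (𝓞 K) →*₀ ℂ) :=
  {ψ | ∃ (ν : InfinitePlace K → ℝ) (l : InfinitePlace K → ℤ), (∀ w, |ν w| ≤ V) ∧
    (∀ w, |(l w : ℝ)| ≤ V) ∧ ∑ w, ν w = 0 ∧ IsHecke K 𝔣 ν l ψ}

/-- The coset modulo `𝔞` of the character `ψ` of infinity type `(ν, ℓ)`: the primitive Hecke characters
`ψ'` of conductor `𝔣`, with normalised infinity type `(ν', ℓ')` in the box `|ν'_w| ≤ V`, `|ℓ'_w| ≤ V`,
whose finite part agrees with that of `ψ` at the totally positive `x ≡ 1` modulo `𝔞`. -/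
def coset (𝔣 𝔞 : Ideal (𝓞 K)) (V : ℝ) (ν : InfinitePlace K → ℝ) (l : InfinitePlace K → ℤ)
    (ψ : Ideal (𝓞 K) →*₀ ℂ) : Set (Ideal (𝓞 K) →*₀ ℂ) :=
  {ψ' | ∃ (ν' : InfinitePlace K → ℝ) (l' : InfinitePlace K → ℤ), (∀ w, |ν' w| ≤ V) ∧
    (∀ w, |(l' w : ℝ)| ≤ V) ∧ ∑ w, ν' w = 0 ∧ IsHecke K 𝔣 ν' l' ψ' ∧
    ∀ x : 𝓞 K, x ≠ 0 → x - 1 ∈ 𝔞 → TotPos K x →
      ψ' (Ideal.span {x}) * arch K ν l (x : K) = ψ (Ideal.span {x}) * arch K ν' l' (x : K)}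

/-- `p` is a prime number, `𝔮 ≠ (1)` divides `(p)^k`, and the prime factors `𝔭` of `𝔮` have degree one
and are unramified over `p`. -/
def Supported (p k : ℕ) (𝔮 : Ideal (𝓞 K)) : Prop :=
  p.Prime ∧ 𝔮 ≠ ⊤ ∧ 𝔮 ∣ Ideal.span {(p : 𝓞 K)} ^ k ∧
    ∀ 𝔭 : Ideal (𝓞 K), 𝔭.IsPrime → 𝔭 ∣ 𝔮 → Ideal.absNorm 𝔭 = p ∧ (p : 𝓞 K) ∉ 𝔭 ^ 2

/-- The prime number `p` splits completely in `K`: there are `[K : ℚ]` ideals of norm `p`. -/
def SplitsCompletely (p : ℕ) : Prop :=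
  p.Prime ∧ ∃ S : Finset (Ideal (𝓞 K)), S.card = Module.finrank ℚ K ∧
    ∀ 𝔭 ∈ S, Ideal.absNorm 𝔭 = p

variable {K}

/-- `F` is the (entire) L-function of `ψ`. -/
def IsL (ψ : Ideal (𝓞 K) →*₀ ℂ) (F : ℂ → ℂ) : Prop :=
  Differentiable ℂ F ∧ ∀ s : ℂ, 1 < s.re →
    HasSum (fun 𝔞 : Ideal (𝓞 K) => ψ 𝔞 * ((Ideal.absNorm 𝔞 : ℕ) : ℂ) ^ (-s)) (F s)

/-- The twist of `ψ` by the Dirichlet character `χ`: the product of `ψ` and `χ ∘ N`. -/
noncomputable def twist (ψ : Ideal (𝓞 K) →*₀ ℂ) {q : ℕ} (χ : DirichletCharacter ℂ q) :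
    Ideal (𝓞 K) →*₀ ℂ where
  toFun 𝔞 := ψ 𝔞 * χ ((Ideal.absNorm 𝔞 : ℕ) : ZMod q)
  map_zero' := by rw [map_zero, zero_mul]
  map_one' := by
    rw [map_one, one_mul]
    simp
  map_mul' 𝔞 𝔟 := by
    rw [map_mul, map_mul, Nat.cast_mul, map_mul]
    ring

end

/-- The mean square bound for the field `K`, with the constant `C`, for the infinity types in the box
`|ν_w|, |ℓ_w| ≤ V` and for `|t| ≤ T`: for all cosets (and all their finite subsets). -/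
def MeanBound (K : Type) [Field K] [NumberField K] (V T C : ℝ) : Prop :=
  ∀ (p k : ℕ) (𝔮 : Ideal (𝓞 K)), Supported K p k 𝔮 → 7 ≤ p →
    ∀ 𝔠 : Ideal (𝓞 K), 𝔠 ≠ ⊥ → IsCoprime 𝔠 𝔮 →
    ∀ 𝔞 : Ideal (𝓞 K), 𝔞 ∣ 𝔮 → 𝔮 ^ 19 ∣ 𝔞 ^ 58 →
    ∀ (ν : InfinitePlace K → ℝ) (l : InfinitePlace K → ℤ) (ψ : Ideal (𝓞 K) →*₀ ℂ)
      (S : Finset (Ideal (𝓞 K) →*₀ ℂ)), (S : Set (Ideal (𝓞 K) →*₀ ℂ)) ⊆ coset K (𝔠 * 𝔮) 𝔞 V ν l ψ →
    ∀ F : (Ideal (𝓞 K) →*₀ ℂ) → ℂ → ℂ, (∀ ψ' ∈ S, IsL ψ' (F ψ')) → ∀ t : ℝ, |t| ≤ T →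
      ∑ ψ' ∈ S, ‖F ψ' (1 / 2 + t * I)‖ ^ 2 ≤ C * (Ideal.absNorm 𝔠 : ℝ) ^ 4 *
        ((p : ℝ) * k) ^ (82 * Module.finrank ℚ K) * (Ideal.absNorm 𝔞 : ℝ)

/-- The bound for the single characters, with the constant `C`. -/
def Bound (K : Type) [Field K] [NumberField K] (V T C : ℝ) : Prop :=
  ∀ (p k : ℕ) (𝔮 : Ideal (𝓞 K)), Supported K p k 𝔮 → 7 ≤ p →
    ∀ 𝔠 : Ideal (𝓞 K), 𝔠 ≠ ⊥ → IsCoprime 𝔠 𝔮 →
    ∀ ψ ∈ family K (𝔠 * 𝔮) V, (∃ F : ℂ → ℂ, IsL ψ F) ∧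
      ∀ F : ℂ → ℂ, IsL ψ F → ∀ t : ℝ, |t| ≤ T → ‖F (1 / 2 + t * I)‖ ≤
        C * (Ideal.absNorm 𝔠 : ℝ) ^ 2 * ((p : ℝ) * k) ^ (42 * Module.finrank ℚ K) *
          (Ideal.absNorm 𝔮 : ℝ) ^ (19 / 116 : ℝ)

/-- The size of the families: existence of primitive characters of conductor `𝔮` with infinity type
bounded by `V₀` and of conductor `𝔠 𝔮`, and the number of members of the cosets of the characters with
infinity type bounded by `V`. -/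
def Size (K : Type) [Field K] [NumberField K] (V V₀ C : ℝ) : Prop :=
  ∀ (p k : ℕ) (𝔮 : Ideal (𝓞 K)), Supported K p k 𝔮 → 7 ≤ p →
    ∀ 𝔠 : Ideal (𝓞 K), 𝔠 ≠ ⊥ → IsCoprime 𝔠 𝔮 →
    (∃ ω ∈ family K 𝔮 V₀, ∀ ψ ∈ family K 𝔠 V, ψ * ω ∈ family K (𝔠 * 𝔮) (V + V₀)) ∧
    ∀ 𝔞 : Ideal (𝓞 K), 𝔞 ∣ 𝔮 → 𝔮 ^ 19 ∣ 𝔞 ^ 58 →
    ∀ (ν : InfinitePlace K → ℝ) (l : InfinitePlace K → ℤ) (ψ : Ideal (𝓞 K) →*₀ ℂ),
      (∀ w, |ν w| ≤ V) → (∀ w, |(l w : ℝ)| ≤ V) → ∑ w, ν w = 0 → IsHecke K (𝔠 * 𝔮) ν l ψ →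
      (coset K (𝔠 * 𝔮) 𝔞 (V + V₀) ν l ψ).Finite ∧
      (3 / 7 : ℝ) ^ Module.finrank ℚ K * (Ideal.absNorm 𝔞 : ℝ) ≤
        ((coset K (𝔠 * 𝔮) 𝔞 (V + V₀) ν l ψ).ncard : ℝ) ∧
      ((coset K (𝔠 * 𝔮) 𝔞 (V + V₀) ν l ψ).ncard : ℝ) ≤ C * (Ideal.absNorm 𝔞 : ℝ)

/-! ### Auxiliary facts -/

section

variable {K : Type} [Field K] [NumberField K]

lemma arch_eq (ν : InfinitePlace K → ℝ) (l : InfinitePlace K → ℤ) (x : K) :
    arch K ν l x = Pool.Agent.Y767.ax ν x * Pool.Agent.J4H31.U.ang l x := rfl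

lemma arch_ne (ν : InfinitePlace K → ℝ) (l : InfinitePlace K → ℤ) {x : 𝓞 K} (hx : x ≠ 0) :
    arch K ν l (x : K) ≠ 0 :=
  (Pool.Agent.J4H31.U.mul0_type ν l).ne _ (by simpa using hx)

lemma IsHecke.conv {𝔣 : Ideal (𝓞 K)} {ν : InfinitePlace K → ℝ} {l : InfinitePlace K → ℤ}
    {ψ : Ideal (𝓞 K) →*₀ ℂ} (h : IsHecke K 𝔣 ν l ψ) :
    Pool.Agent.J4H31.U.IsHA 𝔣
      (fun x : K => Pool.Agent.Y767.ax ν x * Pool.Agent.J4H31.U.ang l x) ψ :=
  ⟨h.ne_bot, h.supp, h.ray, h.prim⟩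

lemma IsHecke.of {𝔣 : Ideal (𝓞 K)} {ν : InfinitePlace K → ℝ} {l : InfinitePlace K → ℤ}
    {ψ : Ideal (𝓞 K) →*₀ ℂ} (h : Pool.Agent.J4H31.U.IsHA 𝔣
      (fun x : K => Pool.Agent.Y767.ax ν x * Pool.Agent.J4H31.U.ang l x) ψ) :
    IsHecke K 𝔣 ν l ψ :=
  ⟨h.ne_bot, h.supp, h.ray, h.prim⟩

open Classical in
lemma exists_split {p : ℕ} (h : SplitsCompletely K p) :
    ∃ 𝔭 : (K →+* ℂ) → Ideal (𝓞 K), Pool.Agent.J4H31.V.Split p 𝔭 := by
  obtain ⟨hp, S, hS, hN⟩ := h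
  have hcard : Fintype.card (K →+* ℂ) = Module.finrank ℚ K := Pool.Agent.Y773.G.card_emb
  have hc : Fintype.card (K →+* ℂ) = Fintype.card S := by
    rw [hcard, ← hS, Fintype.card_coe]
  set e := Fintype.equivOfCardEq hc
  exact ⟨fun w => (e w : Ideal (𝓞 K)), hp, fun w => hN _ (e w).2,
    fun w w' h => e.injective (Subtype.ext h), hcard⟩

lemma natAbs_le {V : ℝ} {l : ℤ} (h : |(l : ℝ)| ≤ V) : l.natAbs ≤ max 1 ⌊V⌋₊ := by
  refine le_max_of_le_right (Nat.le_floor ?_)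
  rw [Nat.cast_natAbs, Int.cast_abs]
  exact h

omit [NumberField K] in
lemma mul_ne_top {𝔠 𝔮 : Ideal (𝓞 K)} (h : 𝔮 ≠ ⊤) : 𝔠 * 𝔮 ≠ ⊤ := fun h0 =>
  h (top_le_iff.1 (h0 ▸ Ideal.mul_le_right))

open Classical in
lemma absNorm_prod {p : ℕ} {𝔭 : (K →+* ℂ) → Ideal (𝓞 K)} {κ a : (K →+* ℂ) → ℕ}
    (h : Pool.Agent.J4H31.W.Sup p 𝔭 κ) (ha : ∀ i, a i ≤ κ i) :
    (Ideal.absNorm (∏ i, 𝔭 i ^ a i) : ℝ) = (p : ℝ) ^ (∑ i, a i) := by
  rw [map_prod, Finset.prod_congr rfl fun i _ => h.norm_pow (ha i), Finset.prod_pow_eq_pow_sum]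
  push_cast
  rfl

/-- the data of a coset -/
lemma coset_data {𝔣 𝔞 : Ideal (𝓞 K)} {V : ℝ} {ν₀ : InfinitePlace K → ℝ}
    {l₀ : InfinitePlace K → ℤ} {ψ₀ : Ideal (𝓞 K) →*₀ ℂ} {S : Finset (Ideal (𝓞 K) →*₀ ℂ)}
    (hS : (S : Set (Ideal (𝓞 K) →*₀ ℂ)) ⊆ coset K 𝔣 𝔞 V ν₀ l₀ ψ₀) :
    ∃ (ν : (Ideal (𝓞 K) →*₀ ℂ) → InfinitePlace K → ℝ)
      (l : (Ideal (𝓞 K) →*₀ ℂ) → InfinitePlace K → ℤ),
      (∀ ψ ∈ S, (∀ w, |ν ψ w| ≤ V) ∧ (∀ w, (l ψ w).natAbs ≤ max 1 ⌊V⌋₊) ∧ (∑ w, ν ψ w = 0) ∧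
        Pool.Agent.J4H31.U.IsHA 𝔣
          (fun x => Pool.Agent.Y767.ax (ν ψ) x * Pool.Agent.J4H31.U.ang (l ψ) x) ψ) ∧
      (∀ ψ ∈ S, ∀ ψ' ∈ S, ∀ x : 𝓞 K, x ≠ 0 → x - 1 ∈ 𝔞 → Pool.Agent.Y773.TPos K x →
        ψ' (Ideal.span {x}) *
            (Pool.Agent.Y767.ax (ν ψ) (x : K) * Pool.Agent.J4H31.U.ang (l ψ) (x : K)) =
          ψ (Ideal.span {x}) *
            (Pool.Agent.Y767.ax (ν ψ') (x : K) * Pool.Agent.J4H31.U.ang (l ψ') (x : K))) := by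
  classical
  have h0 : ∀ ψ, ψ ∈ S → ∃ (ν' : InfinitePlace K → ℝ) (l' : InfinitePlace K → ℤ),
    (∀ w, |ν' w| ≤ V) ∧ (∀ w, |(l' w : ℝ)| ≤ V) ∧ ∑ w, ν' w = 0 ∧ IsHecke K 𝔣 ν' l' ψ ∧
    ∀ x : 𝓞 K, x ≠ 0 → x - 1 ∈ 𝔞 → TotPos K x →
      ψ (Ideal.span {x}) * arch K ν₀ l₀ (x : K) = ψ₀ (Ideal.span {x}) * arch K ν' l' (x : K) :=
    fun ψ hψ => hS (Finset.mem_coe.2 hψ)
  choose! ν l h1 h2 h3 h4 h5 using h0
  refine ⟨ν, l, fun ψ hψ => ⟨h1 ψ hψ, fun w => natAbs_le (h2 ψ hψ w), h3 ψ hψ, (h4 ψ hψ).conv⟩, ?_⟩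
  intro ψ hψ ψ' hψ' x hx hx1 hx2
  have e1 := h5 ψ hψ x hx hx1 hx2
  have e2 := h5 ψ' hψ' x hx hx1 hx2
  have h6 : arch K ν₀ l₀ (x : K) ≠ 0 := arch_ne ν₀ l₀ hx
  refine mul_right_cancel₀ h6 ?_
  change ψ' (Ideal.span {x}) * arch K (ν ψ) (l ψ) (x : K) * _ =
    ψ (Ideal.span {x}) * arch K (ν ψ') (l ψ') (x : K) * _
  linear_combination (arch K (ν ψ) (l ψ) (x : K)) * e2 - (arch K (ν ψ') (l ψ') (x : K)) * e1

end

theorem mean (K : Type) [Field K] [NumberField K] (V T : ℝ) :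
    ∃ C : ℝ, 0 < C ∧ MeanBound K V T C := by
  classical
  obtain ⟨C, hC, H⟩ := Pool.Agent.J4H31.W.meanT K (le_max_left 1 ⌊V⌋₊) V T
  refine ⟨C, hC, ?_⟩
  intro p k 𝔮 hsup hp 𝔠 h𝔠 hcop 𝔞 h𝔞 hpow ν₀ l₀ ψ₀ S hS F hF t ht
  obtain ⟨hpr, hne, hd, hdeg⟩ := hsup
  obtain ⟨𝔭, κ, hκ, hne', hκk, hq, hidx⟩ := Pool.Agent.J4H31.W.exists_idx hpr hne hd hdeg
  obtain ⟨a, ha1, ha2, ha3⟩ := hidx 𝔞 h𝔞 hpow
  have hk : 1 ≤ k := by
    obtain ⟨i, hi⟩ := hne'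
    have := hκk i
    omega
  obtain ⟨ν, l, hd1, hd2⟩ := coset_data hS
  rw [← hq] at hcop hd1
  rw [← ha3] at hd2
  rw [← ha3, absNorm_prod hκ ha1]
  exact H p 𝔭 κ hκ hp hne' 𝔠 h𝔠 hcop k hk hκk a ha1 ha2 S ν l hd1 hd2 F (fun ψ hψ => (hF ψ hψ).1)
    (fun ψ hψ s hs => ((hF ψ hψ).2 s hs).tsum_eq.symm) t ht

theorem single (K : Type) [Field K] [NumberField K] (V T : ℝ) :
    ∃ C : ℝ, 0 < C ∧ Bound K V T C := by
  classical
  obtain ⟨C, hC, H⟩ := Pool.Agent.J4H31.W.meanT K (le_max_left 1 ⌊V⌋₊) V T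
  refine ⟨Real.sqrt C, Real.sqrt_pos.2 hC, ?_⟩
  rintro p k 𝔮 hsup hp 𝔠 h𝔠 hcop ψ ⟨ν, l, hν, hl, hs, h⟩
  obtain ⟨hpr, hne, hd, hdeg⟩ := hsup
  refine ⟨?_, ?_⟩
  · obtain ⟨σ, e, hσ, he, heM, hM, hP⟩ :=
      h.conv.toK hs (mul_ne_top hne) (le_max_left 1 ⌊V⌋₊) (fun w => natAbs_le (hl w))
    obtain ⟨C₁, -, hfe⟩ := Pool.Agent.J4H31.U.fe_boundX K
    obtain ⟨F, -, -, -, -, hF, hFL, -⟩ := hfe hσ he hs hP hM
    obtain ⟨A₀, hA₀, hD⟩ := Pool.Agent.Y772.DK.t_dirK K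
    obtain ⟨d1, -⟩ := hD _ hM.norm_le_one
    refine ⟨F, hF, fun s hs => ?_⟩
    rw [hFL s hs]
    exact (d1 s hs).of_norm.hasSum
  · intro F hF t ht
    obtain ⟨𝔭, κ, hκ, hne', hκk, hq, -⟩ := Pool.Agent.J4H31.W.exists_idx hpr hne hd hdeg
    have hk : 1 ≤ k := by
      obtain ⟨i, hi⟩ := hne'
      have := hκk i
      omega
    rw [← hq] at hcop
    set a : (K →+* ℂ) → ℕ := fun i => (19 * κ i + 57) / 58 with ha
    have ha1 : ∀ i, a i ≤ κ i := fun i => by simp only [ha]; omega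
    have ha2 : ∀ i, 19 * κ i ≤ 58 * a i := fun i => by simp only [ha]; omega
    have ha3 : ∀ i, 58 * a i ≤ 19 * κ i + 57 := fun i => by simp only [ha]; omega
    have hmain := H p 𝔭 κ hκ hp hne' 𝔠 h𝔠 hcop k hk hκk a ha1 ha2 {ψ} (fun _ => ν) (fun _ => l)
      (fun ψ' hψ' => by
        rw [Finset.mem_singleton] at hψ'
        subst hψ'
        refine ⟨hν, fun w => natAbs_le (hl w), hs, ?_⟩
        rw [hq]
        exact h.conv)
      (fun ψ' hψ' ψ'' hψ'' x _ _ _ => by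
        rw [Finset.mem_singleton] at hψ' hψ''
        subst hψ' hψ''
        rfl) (fun _ => F) (fun _ _ => hF.1)
      (fun ψ' hψ' s hs => by
        rw [Finset.mem_singleton] at hψ'
        subst hψ'
        exact (hF.2 s hs).tsum_eq.symm) t ht
    rw [Finset.sum_singleton] at hmain
    set n := Module.finrank ℚ K with hn
    have hp0 : (0 : ℝ) < p := by exact_mod_cast hpr.pos
    have hp1 : (1 : ℝ) ≤ p := by exact_mod_cast hpr.one_le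
    have hk1 : (1 : ℝ) ≤ k := by exact_mod_cast hk
    have hNq : (Ideal.absNorm 𝔮 : ℝ) = (p : ℝ) ^ (∑ i, κ i) := by
      rw [← hq]
      exact absNorm_prod hκ fun i => le_rfl
    have hNq0 : (0 : ℝ) ≤ Ideal.absNorm 𝔮 := Nat.cast_nonneg _
    have hsum : (58 : ℝ) * (∑ i, a i : ℕ) ≤ 19 * (∑ i, κ i : ℕ) + 58 * n := by
      have h1 : 58 * ∑ i, a i ≤ 19 * ∑ i, κ i + 57 * Fintype.card (K →+* ℂ) := by
        rw [Finset.mul_sum, Finset.mul_sum]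
        calc ∑ i, 58 * a i ≤ ∑ i, (19 * κ i + 57) := Finset.sum_le_sum fun i _ => ha3 i
          _ = _ := by
            rw [Finset.sum_add_distrib, Finset.sum_const, Finset.card_univ, smul_eq_mul]
            ring
      rw [hκ.card] at h1
      have h2 : 58 * ∑ i, a i ≤ 19 * ∑ i, κ i + 58 * n := by omega
      exact_mod_cast h2
    have hpa : (p : ℝ) ^ (∑ i, a i) ≤ ((p : ℝ) * k) ^ n * ((Ideal.absNorm 𝔮 : ℝ) ^ (19 / 116 : ℝ)) ^ 2 := by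
      have e1 : ((Ideal.absNorm 𝔮 : ℝ) ^ (19 / 116 : ℝ)) ^ 2 = (p : ℝ) ^ ((19 / 58 : ℝ) * (∑ i, κ i : ℕ)) := by
        rw [← Real.rpow_natCast, ← Real.rpow_mul hNq0, hNq, ← Real.rpow_natCast, ← Real.rpow_mul hp0.le]
        congr 1
        push_cast
        ring
      rw [e1]
      calc (p : ℝ) ^ (∑ i, a i) = (p : ℝ) ^ ((∑ i, a i : ℕ) : ℝ) := (Real.rpow_natCast _ _).symm
        _ ≤ (p : ℝ) ^ ((n : ℝ) + (19 / 58 : ℝ) * (∑ i, κ i : ℕ)) :=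
            Real.rpow_le_rpow_of_exponent_le hp1 (by linarith)
        _ = (p : ℝ) ^ n * (p : ℝ) ^ ((19 / 58 : ℝ) * (∑ i, κ i : ℕ)) := by
            rw [Real.rpow_add hp0, Real.rpow_natCast]
        _ ≤ _ := by
            refine mul_le_mul_of_nonneg_right ?_ (by positivity)
            exact pow_le_pow_left₀ hp0.le (by nlinarith) n
    have hpk0 : (0 : ℝ) ≤ (p : ℝ) * k := by positivity
    have hpk1 : (1 : ℝ) ≤ (p : ℝ) * k := by nlinarith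
    have hsq : ‖F (1 / 2 + t * I)‖ ^ 2 ≤ (Real.sqrt C * (Ideal.absNorm 𝔠 : ℝ) ^ 2 *
        ((p : ℝ) * k) ^ (42 * n) * (Ideal.absNorm 𝔮 : ℝ) ^ (19 / 116 : ℝ)) ^ 2 := by
      calc _ ≤ C * (Ideal.absNorm 𝔠 : ℝ) ^ 4 * ((p : ℝ) * k) ^ (82 * n) * (p : ℝ) ^ (∑ i, a i) := hmain
        _ ≤ C * (Ideal.absNorm 𝔠 : ℝ) ^ 4 * ((p : ℝ) * k) ^ (82 * n) *
            (((p : ℝ) * k) ^ n * ((Ideal.absNorm 𝔮 : ℝ) ^ (19 / 116 : ℝ)) ^ 2) :=
              mul_le_mul_of_nonneg_left hpa (by positivity)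
        _ = C * (Ideal.absNorm 𝔠 : ℝ) ^ 4 * ((p : ℝ) * k) ^ (83 * n) *
            ((Ideal.absNorm 𝔮 : ℝ) ^ (19 / 116 : ℝ)) ^ 2 := by
              rw [show 83 * n = 82 * n + n by ring, pow_add]
              ring
        _ ≤ C * (Ideal.absNorm 𝔠 : ℝ) ^ 4 * ((p : ℝ) * k) ^ (84 * n) *
            ((Ideal.absNorm 𝔮 : ℝ) ^ (19 / 116 : ℝ)) ^ 2 := by
              refine mul_le_mul_of_nonneg_right ?_ (sq_nonneg _)
              refine mul_le_mul_of_nonneg_left ?_ (by positivity)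
              exact pow_le_pow_right₀ hpk1 (by omega)
        _ = Real.sqrt C ^ 2 * ((Ideal.absNorm 𝔠 : ℝ) ^ 2) ^ 2 * (((p : ℝ) * k) ^ (42 * n)) ^ 2 *
            ((Ideal.absNorm 𝔮 : ℝ) ^ (19 / 116 : ℝ)) ^ 2 := by
              rw [Real.sq_sqrt hC.le, ← pow_mul, ← pow_mul, show 42 * n * 2 = 84 * n by ring]
        _ = _ := by
              rw [mul_pow _ ((Ideal.absNorm 𝔮 : ℝ) ^ (19 / 116 : ℝ)),
                mul_pow _ (((p : ℝ) * k) ^ (42 * n)), mul_pow (Real.sqrt C)]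
    exact (pow_le_pow_iff_left₀ (norm_nonneg _) (by positivity) two_ne_zero).1 hsq

theorem size (K : Type) [Field K] [NumberField K] : ∃ V₀ : ℝ, 1 ≤ V₀ ∧ ∀ V : ℝ, ∃ C : ℝ,
    Size K V V₀ C := by
  classical
  obtain ⟨V₁, hV₁, H1⟩ := Pool.Agent.J4H31.W.lowS K
  obtain ⟨V₂, hV₂, H2⟩ := Pool.Agent.J4H31.W.exists_omega K
  refine ⟨V₁ + V₂, by linarith, fun V => ?_⟩
  set V₀ := V₁ + V₂ with hV₀
  obtain ⟨C, hC, H3⟩ := Pool.Agent.J4H31.W.countT K (le_max_left 1 ⌊V + V₀⌋₊) (V + V₀)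
  refine ⟨C, ?_⟩
  rintro p k 𝔮 ⟨hpr, hne, hd, hdeg⟩ hp 𝔠 h𝔠 hcop
  obtain ⟨𝔭, κ, hκ, hne', hκk, hq, hidx⟩ := Pool.Agent.J4H31.W.exists_idx hpr hne hd hdeg
  refine ⟨?_, ?_⟩
  · obtain ⟨ν, l, ω, c1, c2, c3, c4⟩ := H2 hκ (by omega) hq
    refine ⟨ω, ⟨ν, l, fun w => (c1 w).trans (by linarith), fun w => (c2 w).trans (by linarith), c3,
      IsHecke.of c4⟩, ?_⟩
    rintro ψ ⟨ν', l', d1, d2, d3, d4⟩
    have h1 := Pool.Agent.J4H31.U.pr_isHA hcop (Pool.Agent.J4H31.U.mul0_type ν' l')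
      (Pool.Agent.J4H31.U.mul0_type ν l) d4.conv c4 (χ := ψ * ω) (fun 𝔞 _ => rfl)
    refine ⟨fun w => ν' w + ν w, fun w => l' w + l w, fun w => ?_, fun w => ?_, ?_, ?_⟩
    · have := c1 w
      have := d1 w
      have := abs_add_le (ν' w) (ν w)
      linarith
    · have := c2 w
      have := d2 w
      have := abs_add_le (l' w : ℝ) (l w : ℝ)
      push_cast
      linarith
    · rw [Finset.sum_add_distrib, d3, c3, add_zero]
    · refine IsHecke.of (h1.congr fun x hx _ => ?_)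
      rw [Pool.Agent.J4H31.W.typ_add ν' ν l' l (by simpa using hx)]
  · intro 𝔞 h𝔞 hpow ν l ψ hν hl hs h
    obtain ⟨a, ha1, ha2, ha3⟩ := hidx 𝔞 h𝔞 hpow
    have hN : (Ideal.absNorm 𝔞 : ℝ) = (p : ℝ) ^ (∑ i, a i) := by
      rw [← ha3]
      exact absNorm_prod hκ ha1
    have hcop' : IsCoprime 𝔠 (∏ j, 𝔭 j ^ κ j) := by rwa [hq]
    -- the upper bound
    have hup : ∀ S : Finset (Ideal (𝓞 K) →*₀ ℂ), (S : Set (Ideal (𝓞 K) →*₀ ℂ)) ⊆
        coset K (𝔠 * 𝔮) 𝔞 (V + V₀) ν l ψ → (S.card : ℝ) ≤ C * (Ideal.absNorm 𝔞 : ℝ) := by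
      intro S hS
      obtain ⟨ν', l', hd1, hd2⟩ := coset_data hS
      rw [hN]
      rw [← hq] at hd1
      rw [← ha3] at hd2
      exact H3 p 𝔭 κ hκ hne' 𝔠 hcop' a ha1 S ν' l' hd1 hd2
    have hfin : (coset K (𝔠 * 𝔮) 𝔞 (V + V₀) ν l ψ).Finite := by
      by_contra hinf
      obtain ⟨S, hS1, hS2⟩ := Set.Infinite.exists_subset_card_eq hinf
        (⌊C * (Ideal.absNorm 𝔞 : ℝ)⌋₊ + 1)
      have h1 := hup S hS1
      rw [hS2] at h1
      have h2 := Nat.lt_floor_add_one (C * (Ideal.absNorm 𝔞 : ℝ))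
      push_cast at h1
      linarith
    refine ⟨hfin, ?_, ?_⟩
    · -- the lower bound
      obtain ⟨S, hS1, hS2⟩ := H1 (a := a) hκ (by omega) ha1 hq ha3 hcop h𝔠
        (Pool.Agent.J4H31.W.cop_of_pow hpow) hs h.supp h.ray
        (Pool.Agent.J4H31.W.wit_prim hκ ha1 hq ha3 h.conv)
      have hsub : (S : Set (Ideal (𝓞 K) →*₀ ℂ)) ⊆ coset K (𝔠 * 𝔮) 𝔞 (V + V₀) ν l ψ := by
        intro ψ' hψ'
        obtain ⟨ν', l', e1, e2, e3, e4, e5⟩ := hS2 ψ' (Finset.mem_coe.1 hψ')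
        refine ⟨ν', l', fun w => (e1 w).trans ?_, fun w => (e2 w).trans ?_, e3, IsHecke.of e4, e5⟩
        · have := hν w
          linarith
        · have := hl w
          linarith
      have h1 : (S.card : ℝ) ≤ ((coset K (𝔠 * 𝔮) 𝔞 (V + V₀) ν l ψ).ncard : ℝ) := by
        have h2 := Set.ncard_le_ncard hsub hfin
        rw [Set.ncard_coe_finset] at h2
        exact_mod_cast h2
      refine le_trans ?_ h1
      have h3 := Pool.Agent.J4H31.W.card_units_ge hκ ha1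
      rw [ha3] at h3
      have h4 : (6 / 7 : ℝ) ^ Module.finrank ℚ K * (Ideal.absNorm 𝔞 : ℝ) ≤
          (Nat.card (𝓞 K ⧸ 𝔞)ˣ : ℝ) := by
        have h5 : ((∏ i, (p ^ a i).totient : ℕ) : ℝ) ≤ (Nat.card (𝓞 K ⧸ 𝔞)ˣ : ℝ) := by
          exact_mod_cast h3
        refine le_trans ?_ h5
        push_cast
        rw [hN, ← hκ.card, ← Finset.prod_pow_eq_pow_sum, ← Finset.card_univ, ← Finset.prod_const,
          ← Finset.prod_mul_distrib]
        refine Finset.prod_le_prod (fun i _ => by positivity) fun i _ => ?_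
        exact Pool.Agent.J4H31.W.totient_ge hpr hp
      have h5 : (Nat.card (𝓞 K ⧸ 𝔞)ˣ : ℝ) ≤ (S.card : ℝ) * 2 ^ Module.finrank ℚ K := by
        rw [hκ.card] at hS1
        exact_mod_cast hS1
      have h6 : (6 / 7 : ℝ) ^ Module.finrank ℚ K =
          (3 / 7 : ℝ) ^ Module.finrank ℚ K * 2 ^ Module.finrank ℚ K := by
        rw [← mul_pow]
        norm_num
      have h7 : (0 : ℝ) < 2 ^ Module.finrank ℚ K := by positivity
      refine le_of_mul_le_mul_right ?_ h7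
      calc (3 / 7 : ℝ) ^ Module.finrank ℚ K * (Ideal.absNorm 𝔞 : ℝ) * 2 ^ Module.finrank ℚ K =
          (6 / 7 : ℝ) ^ Module.finrank ℚ K * (Ideal.absNorm 𝔞 : ℝ) := by rw [h6]; ring
        _ ≤ _ := h4.trans h5
    · have h1 := hup hfin.toFinset (by rw [Set.Finite.coe_toFinset])
      rwa [Set.ncard_eq_toFinset_card _ hfin]

theorem result :
    -- the mean squares over the cosets
    (∀ (K : Type) [Field K] [NumberField K] (V T : ℝ), ∃ C : ℝ, 0 < C ∧ MeanBound K V T C) ∧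
    -- the single characters
    (∀ (K : Type) [Field K] [NumberField K] (V T : ℝ), ∃ C : ℝ, 0 < C ∧ Bound K V T C) ∧
    -- the size of the families
    (∀ (K : Type) [Field K] [NumberField K], ∃ V₀ : ℝ, 1 ≤ V₀ ∧ ∀ V : ℝ, ∃ C : ℝ,
      Size K V V₀ C) ∧
    -- the twists are among these characters
    (∀ (K : Type) [Field K] [NumberField K] (p : ℕ), SplitsCompletely K p → ∀ k : ℕ, 1 ≤ k →
      Supported K p k (Ideal.span {(p : 𝓞 K)} ^ k) ∧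
      ∀ 𝔠 : Ideal (𝓞 K), IsCoprime 𝔠 (Ideal.span {(p : 𝓞 K)}) →
      ∀ V : ℝ, ∀ ψ ∈ family K 𝔠 V, ∀ χ : DirichletCharacter ℂ (p ^ k), χ.IsPrimitive →
        twist ψ χ ∈ family K (𝔠 * Ideal.span {(p : 𝓞 K)} ^ k) V) := by
  classical
  refine ⟨mean, single, size, ?_⟩
  intro K _ _ p hsp k hk
  obtain ⟨𝔭, hd⟩ := exists_split hsp
  have hpk : ∏ j, 𝔭 j ^ k = Ideal.span {(p : 𝓞 K)} ^ k := by
    rw [Finset.prod_pow, hd.prod_eq]
  refine ⟨⟨hsp.1, ?_, dvd_rfl, ?_⟩, ?_⟩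
  · intro h0
    obtain ⟨i⟩ : Nonempty (K →+* ℂ) := inferInstance
    refine (hd.isPrime i).ne_top (top_le_iff.1 ?_)
    rw [← h0, ← hd.prod_eq]
    refine (Ideal.pow_le_self (by omega)).trans ?_
    exact Ideal.dvd_iff_le.1 (Finset.dvd_prod_of_mem 𝔭 (Finset.mem_univ i))
  · intro 𝔯 h2 h3
    have h0 : 𝔯 ≠ ⊥ := by
      rintro rfl
      obtain ⟨w, hw⟩ := h3
      have h4 : Ideal.span {(p : 𝓞 K)} ^ k ≠ 0 := pow_ne_zero _
        (Pool.Agent.J4H31.W.span_p_ne hsp.1)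
      exact h4 (by rw [hw]; exact Ideal.bot_mul w)
    have hprime : Prime 𝔯 := Ideal.prime_of_isPrime h0 h2
    rw [← hpk] at h3
    obtain ⟨i, -, hi⟩ := (Prime.dvd_finsetProd_iff hprime _).1 h3
    have hi' : 𝔯 ∣ 𝔭 i := hprime.dvd_of_dvd_pow hi
    have h5 : 𝔯 = 𝔭 i := ((hd.isMaximal i).eq_of_le h2.ne_top (Ideal.dvd_iff_le.1 hi')).symm
    rw [h5]
    exact ⟨(hd.deg1 i).norm, (hd.deg1 i).unr⟩
  · rintro 𝔠 hcop V ψ ⟨ν, l, hν, hl, hs, h⟩ χ hχ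
    have hcop' : IsCoprime 𝔠 (∏ j, 𝔭 j ^ k) := by
      rw [hpk]
      exact hcop.pow_right
    have h1 := Pool.Agent.J4H31.U.pr_isHA hcop' (Pool.Agent.J4H31.U.mul0_type ν l)
      Pool.Agent.J4H31.U.mul0_one h.conv (Pool.Agent.J4H31.U.nch_isHA hd hk hχ) (χ := twist ψ χ)
      (fun 𝔞 h𝔞 => by
        rw [Pool.Agent.J4H31.V.nch_apply χ h𝔞]
        rfl)
    rw [hpk] at h1
    exact ⟨ν, l, hν, hl, hs, IsHecke.of (h1.congr fun x _ _ => mul_one _)⟩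

end Pool.Agent.Results.MP_52e316_nt.ThinCosetsAllFields
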