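import Pool.Agent.J4H1.LG.Fin
import Pool.Agent.J4H34.AR.R4

/-!
# The threshold of the de Bruijn-Newman flow of L-functions

Let `ξ(s) = N^(s/2) Λ(s, π)` be the completed standard L-function of a cuspidal automorphic
representation `π` of `GL_m`, let `C(t) = C(π, t)` be the analytic conductor at height `t`, and let
`ξ_τ = exp(τ d²/ds²) ξ` be its de Bruijn-Newman flow.  All zeros of `ξ_τ` at height `T` are on the
critical line if `τ ≥ κ / log C(T)`, `κ > 1`, and `C(T)` is large.  From which `κ` on is this true?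
We prove an exact criterion, uniformly in `π`.  For every `κ > 0`, the following are equivalent:

* for every `κ' > κ`, all zeros of `ξ_τ` at heights `T` with `τ log C(T) ≥ κ'` and large `C(T)` are on the
  critical line;
* for every `κ' > κ`, all these zeros are simple and on the critical line;
* `L(1/2 + r + iT) ≪ C(T)^(max(κ - r, 0)²/(4κ) + ε)` for `0 ≤ r ≤ 1/2`, and the zeros of `Λ` at height `T`
  have real part at most `1/2 + κ + o(1)` when `C(T)` tends to infinity.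

For `κ ≥ 1/2` the last condition is true, and the criterion concerns only the size of the
L-function.  Consequences:

* a bound `L(1/2 + iT) ≪ C(T)^(θ + ε)`, `0 ≤ θ ≤ 1/4`, gives every `κ > 1/(2 - 4θ)`, and the Lindelöf
  Hypothesis gives every `κ > 1/2`;
* a subconvex bound (some `θ < 1/4`) holds if and only if some `κ < 1` is possible;
* every `κ > 0` is possible if and only if the zeros of `Λ` have real part at most `1/2 + o(1)`.

All this holds for the Riemann zeta function as well, with Riemann's `ξ`, and there every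
`κ > 27/40` is possible, without any hypothesis (the bounds of van der Corput for zeta on the lines
`Re s = 1/2` and `Re s = 5/7` give the size exponents for `κ = 27/40`): in the usual normalisation, all zeros
`z` of `H_t` with `|Re z| ≥ exp((27/10 + ε)/t)` and `|Re z|` large are real and simple.

Proof (modules `Pool.Agent.J4H1.LG` and `Pool.Agent.J4H1.LH`, with W. and other modules of the project HF of
the starting files): `ξ_τ` is a Gaussian average of `ξ` along horizontal lines.  By the functional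
equation it is `J(x) + ε conj J(-x)`, where `J(x)` is an integral over the right half-line with the saddle
point `x + κ + ...`; the size bound controls the part of the integral near the critical line, and the
absence of zeros to the right of `κ` gives the size of the part around the saddle point.  Harnack's
inequality for `log |J(a)/J(-a)|` near `0` gives `|J(x)| > |J(-x)|` for `x > 0`, and simple zeros.
Conversely `ξ` is the average of `ξ_τ` along vertical lines.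
-/

set_option autoImplicit false

namespace Pool.Agent.Results.MP_52e316_nt.ThresholdOfTheFlow

open Complex
open scoped ComplexConjugate

/-! ### L-functions -/

/-- the analytic conductor at height `t` -/
noncomputable def conductor {m : ℕ} (N : ℝ) (μ : Fin m → ℂ) (t : ℝ) : ℝ :=
  N * ∏ j, (1 + ‖(t : ℂ) * I - μ j‖)

/-- The terms `log p |∑_j α_j(p)^k|² p^(-kσ)`, indexed by the primes `p` and by `k - 1`. -/
noncomputable def rsTerm {m : ℕ} (α : Fin m → ℕ → ℂ) (σ : ℝ) (x : Nat.Primes × ℕ) : ℝ :=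
  Real.log (x.1 : ℕ) * ‖∑ j, α j x.1 ^ (x.2 + 1)‖ ^ 2 * (((x.1 : ℕ) ^ (x.2 + 1) : ℕ) : ℝ) ^ (-σ)

/-- The analytic data of the standard L-function of a unitary cuspidal automorphic representation `π` of
`GL_m` over the rationals (not of the form `|.|^(it)` on `GL_1`): conductor `N`, archimedean
parameters `μ j`, Satake parameters `α j p`, root number `ε`, completed L-function `Λ`.  All these
properties are known for all such `π` (Godement-Jacquet, Jacquet-Shalika; the last one, where `K`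
depends on `m` only, is the bound for the logarithmic derivative of `L(s, π × π~)` at `s = σ`, applied
to the twists of `π` by `|det|^(it)`). -/
structure StandardData {m : ℕ} (K N : ℝ) (μ : Fin m → ℂ) (α : Fin m → ℕ → ℂ) (ε : ℂ) (Λ : ℂ → ℂ) :
    Prop where
  /-- the conductor -/
  one_le : 1 ≤ N
  /-- the bound of Jacquet and Shalika at infinity -/
  re_le : ∀ j, (μ j).re ≤ 1 / 2
  /-- the bound of Jacquet and Shalika at the primes -/
  norm_le : ∀ j, ∀ p : ℕ, p.Prime → ‖α j p‖ ≤ Real.sqrt p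
  /-- the root number -/
  norm_eq : ‖ε‖ = 1
  /-- the completed L-function is entire -/
  entire : Differentiable ℂ Λ
  /-- `Λ(s) = ∏_j Γ_ℝ(s - μ_j) ∏_p ∏_j (1 - α_j(p) p^(-s))⁻¹`, where the product converges
  absolutely because of `norm_le` -/
  euler : ∀ s : ℂ, 3 / 2 < s.re → Λ s = (∏ j, Gammaℝ (s - μ j)) *
    ∏' p : Nat.Primes, ∏ j, (1 - α j p * (p : ℂ) ^ (-s))⁻¹
  /-- `Λ(s, π) = ε N^(1/2 - s) Λ(1 - s, π~)` with `Λ(s, π~) = conj Λ(conj s, π)` -/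
  fe : ∀ s : ℂ, Λ s = ε * (N : ℂ) ^ (1 / 2 - s) * conj (Λ (1 - conj s))
  /-- at most exponential growth in vertical strips (in fact `Λ` is bounded there) -/
  growth : ∀ a b : ℝ, ∃ M, ∀ s : ℂ, a ≤ s.re → s.re ≤ b → ‖Λ s‖ ≤ Real.exp (M * (1 + |s.im|))
  /-- the Rankin-Selberg bound -/
  rankin : ∀ σ : ℝ, 1 < σ → σ ≤ 2 → ∀ t : ℝ, Summable (rsTerm α σ) ∧
    ∑' x, rsTerm α σ x ≤ K * (1 / (σ - 1) + 1 + Real.log (conductor N μ t))

/-- The L-function `L(s) = Λ(s) / ∏_j Γ_ℝ(s - μ_j)`, continued analytically (an entire function). -/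
noncomputable def Lfun {m : ℕ} (μ : Fin m → ℂ) (Λ : ℂ → ℂ) (s : ℂ) : ℂ :=
  Λ s * ∏ j, (Gammaℝ (s - μ j))⁻¹

/-- `ξ(s) = N^(s/2) Λ(s)`, so that `ξ(s) = ε conj (ξ(1 - conj s))`. -/
noncomputable def xi (N : ℝ) (Λ : ℂ → ℂ) (s : ℂ) : ℂ := (N : ℂ) ^ (s / 2) * Λ s

/-- Riemann's `ξ(s) = s (s - 1) π^(-s/2) Γ(s/2) ζ(s) / 2` -/
noncomputable def xiZeta (s : ℂ) : ℂ := (s * (s - 1) * completedRiemannZeta₀ s + 1) / 2

/-! ### The flow and the criterion -/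

/-- The flow `F_τ = exp(τ d²/ds²) F`, as a Gaussian average. -/
noncomputable def flow (F : ℂ → ℂ) (τ : ℝ) (s : ℂ) : ℂ :=
  ((Real.sqrt (4 * Real.pi * τ))⁻¹ : ℝ) *
    ∫ v : ℝ, F (s + v) * (Real.exp (-(v ^ 2 / (4 * τ))) : ℝ)

section properties

variable {ι : Type} (L ξ : ι → ℂ → ℂ) (C : ι → ℝ → ℝ)

/-- The size: `L(1/2 + r + it) ≪ C(t)^(max(κ - r, 0)²/(4κ) + ε)` for `0 ≤ r ≤ 1/2`, `|t| ≥ t₀`. -/
def Size (t₀ κ : ℝ) : Prop := ∀ ε : ℝ, 0 < ε → ∃ B : ℝ, ∀ (i : ι) (t r : ℝ), t₀ ≤ |t| → 0 ≤ r →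
  r ≤ 1 / 2 → ‖L i (1 / 2 + r + t * I)‖ ≤ B * C i t ^ (max (κ - r) 0 ^ 2 / (4 * κ) + ε)

/-- The size on the critical line: `L(1/2 + it) ≪ C(t)^(θ + ε)`. -/
def Bound (θ : ℝ) : Prop := ∀ ε : ℝ, 0 < ε → ∃ B : ℝ, ∀ (i : ι) (t : ℝ),
  ‖L i (1 / 2 + t * I)‖ ≤ B * C i t ^ (θ + ε)

/-- From the time `κ / log C(T)` on all zeros of the flow at height `T` are on the line, if `C(T)` is
large. -/
def OnLine (κ : ℝ) : Prop := ∃ C₀ : ℝ, ∀ (i : ι) (s : ℂ) (τ : ℝ),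
  C₀ ≤ Real.log (C i s.im) → 0 < τ → τ ≤ 1 → κ ≤ τ * Real.log (C i s.im) →
    flow (ξ i) τ s = 0 → s.re = 1 / 2

/-- From the time `κ / log C(T)` on all zeros of the flow at height `T` are simple and on the line, if
`C(T)` is large. -/
def SimpleOnLine (κ : ℝ) : Prop := ∃ C₀ : ℝ, ∀ (i : ι) (s : ℂ) (τ : ℝ),
  C₀ ≤ Real.log (C i s.im) → 0 < τ → τ ≤ 1 → κ ≤ τ * Real.log (C i s.im) →
    flow (ξ i) τ s = 0 → s.re = 1 / 2 ∧ deriv (flow (ξ i) τ) s ≠ 0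

/-- No zeros of `ξ` with real part larger than `1/2 + ϑ`, if `C(T)` is large. -/
def ZeroFree (ϑ : ℝ) : Prop := ∃ C₀ : ℝ, ∀ (i : ι) (s : ℂ),
  C₀ ≤ Real.log (C i s.im) → 1 / 2 + ϑ < s.re → ξ i s ≠ 0

/-- The criterion and its consequences. -/
structure Criterion (t₀ : ℝ) : Prop where
  /-- all zeros of the flow on the line -/
  onLine_iff : ∀ κ : ℝ, 0 < κ → ((∀ κ' : ℝ, κ < κ' → OnLine ξ C κ') ↔
    Size L C t₀ κ ∧ ∀ ϑ : ℝ, κ < ϑ → ZeroFree ξ C ϑ)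
  /-- all zeros of the flow simple and on the line -/
  simple_iff : ∀ κ : ℝ, 0 < κ → ((∀ κ' : ℝ, κ < κ' → SimpleOnLine ξ C κ') ↔
    Size L C t₀ κ ∧ ∀ ϑ : ℝ, κ < ϑ → ZeroFree ξ C ϑ)
  /-- for `κ ≥ 1/2` only the size matters -/
  half_iff : ∀ κ : ℝ, 1 / 2 ≤ κ → ((∀ κ' : ℝ, κ < κ' → SimpleOnLine ξ C κ') ↔ Size L C t₀ κ)
  /-- bounds on the line -/
  of_bound : ∀ θ κ : ℝ, 0 ≤ θ → θ ≤ 1 / 4 → 1 < κ * (2 - 4 * θ) → Bound L C θ → SimpleOnLine ξ C κ
  /-- subconvexity -/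
  subconvex_iff : (∃ θ : ℝ, θ < 1 / 4 ∧ Bound L C θ) ↔ ∃ κ : ℝ, κ < 1 ∧ SimpleOnLine ξ C κ
  /-- the limit case -/
  zeroFree_iff : (∀ ϑ : ℝ, 0 < ϑ → ZeroFree ξ C ϑ) ↔ ∀ κ : ℝ, 0 < κ → SimpleOnLine ξ C κ

end properties

/-! ### Ray class characters of number fields -/

section chars

open NumberField

variable {F : Type} [Field F] [NumberField F]

/-- `x` is totally positive -/
def TotPos (x : 𝓞 F) : Prop := ∀ τ : F →+* ℝ, 0 < τ (x : F)

/-- `ψ` is a primitive ray class character of conductor `𝔣` (times some real places), as a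
completely multiplicative function on the ideals, zero on the ideals not prime to `𝔣`. -/
structure IsRayClassChar (𝔣 : Ideal (𝓞 F)) (ψ : Ideal (𝓞 F) →*₀ ℂ) : Prop where
  ne_bot : 𝔣 ≠ ⊥
  supp : ∀ 𝔞 : Ideal (𝓞 F), 𝔞 ≠ ⊥ → (ψ 𝔞 ≠ 0 ↔ IsCoprime 𝔞 𝔣)
  ray : ∀ x : 𝓞 F, x ≠ 0 → x - 1 ∈ 𝔣 → TotPos x → ψ (Ideal.span {x}) = 1
  prim : ∀ 𝔤 : Ideal (𝓞 F), 𝔤 ∣ 𝔣 → 𝔤 ≠ 𝔣 →
    ∃ x : 𝓞 F, x - 1 ∈ 𝔤 ∧ TotPos x ∧ IsCoprime (Ideal.span {x}) 𝔣 ∧ ψ (Ideal.span {x}) ≠ 1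

end chars

/-! ### Lemmas -/

lemma size_zero {ι : Type} (L : ι → ℂ → ℂ) (C : ι → ℝ → ℝ) (κ : ℝ) :
    Size L C 0 κ ↔ J4H1.LH.Size L C κ :=
  ⟨fun h ε hε => (h ε hε).imp fun _ HB i t r h1 h2 => HB i t r (abs_nonneg t) h1 h2,
    fun h ε hε => (h ε hε).imp fun _ HB i t r _ h1 h2 => HB i t r h1 h2⟩

lemma size_zeta {κ : ℝ} (hκ : 0 < κ) :
    Size (fun _ : Unit => riemannZeta) (fun _ t => 1 + |t|) 1 κ ↔ J4H1.LG.SizeZ κ := by
  have he0 : ∀ r ε : ℝ, 0 < ε → 0 ≤ max (κ - r) 0 ^ 2 / (4 * κ) + ε := fun r ε hε => by positivity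
  have he1 : ∀ r : ℝ, 0 ≤ r → max (κ - r) 0 ^ 2 / (4 * κ) ≤ κ / 4 := fun r hr => by
    rw [div_le_iff₀ (by positivity)]
    have h3 : max (κ - r) 0 ≤ κ := max_le (by linarith) hκ.le
    have h4 : max (κ - r) 0 ^ 2 ≤ κ ^ 2 := pow_le_pow_left₀ (le_max_right _ _) h3 2
    nlinarith
  constructor
  · intro h ε hε
    obtain ⟨B, HB⟩ := h ε hε
    refine ⟨|B| * 2 ^ (κ / 4 + ε), fun t r ht hr0 hr => ?_⟩
    have h1 := HB () t r ht hr0 hr
    obtain ⟨e, he⟩ : ∃ e : ℝ, e = max (κ - r) 0 ^ 2 / (4 * κ) + ε := ⟨_, rfl⟩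
    have hee : 0 ≤ e := by rw [he]; exact he0 r ε hε
    have hee1 : e ≤ κ / 4 + ε := by rw [he]; linarith [he1 r hr0]
    simp only at h1
    rw [← he] at h1 ⊢
    have h2 : (1 + |t|) ^ e ≤ (2 * |t|) ^ e := Real.rpow_le_rpow (by positivity) (by linarith) hee
    rw [Real.mul_rpow (by norm_num) (abs_nonneg t)] at h2
    have h3 : (2 : ℝ) ^ e ≤ 2 ^ (κ / 4 + ε) := Real.rpow_le_rpow_of_exponent_le (by norm_num) hee1
    have h4 : 0 ≤ |t| ^ e := Real.rpow_nonneg (abs_nonneg t) _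
    calc ‖riemannZeta (1 / 2 + r + t * I)‖ ≤ B * (1 + |t|) ^ e := h1
      _ ≤ |B| * (1 + |t|) ^ e := mul_le_mul_of_nonneg_right (le_abs_self B) (by positivity)
      _ ≤ |B| * (2 ^ (κ / 4 + ε) * |t| ^ e) := by
          apply mul_le_mul_of_nonneg_left _ (abs_nonneg B)
          exact h2.trans (mul_le_mul_of_nonneg_right h3 h4)
      _ = _ := by ring
  · intro h ε hε
    obtain ⟨B, HB⟩ := h ε hε
    refine ⟨|B|, fun _ t r ht hr0 hr => ?_⟩
    have h1 := HB t r ht hr0 hr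
    have h2 : |t| ^ (max (κ - r) 0 ^ 2 / (4 * κ) + ε) ≤ (1 + |t|) ^ (max (κ - r) 0 ^ 2 / (4 * κ) + ε) :=
      Real.rpow_le_rpow (abs_nonneg t) (by linarith) (he0 r ε hε)
    calc ‖riemannZeta (1 / 2 + r + t * I)‖ ≤ B * |t| ^ (max (κ - r) 0 ^ 2 / (4 * κ) + ε) := h1
      _ ≤ |B| * |t| ^ (max (κ - r) 0 ^ 2 / (4 * κ) + ε) :=
          mul_le_mul_of_nonneg_right (le_abs_self B) (Real.rpow_nonneg (abs_nonneg t) _)
      _ ≤ _ := mul_le_mul_of_nonneg_left h2 (abs_nonneg B)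

lemma xiZeta_eq : (fun _ : Unit => xiZeta) = J4H1.LG.XZ := by
  funext _ s
  unfold xiZeta J4H1.LG.XZ J4H1.JP.XX J4H1.JP.Xi
  have e1 : (1 / 2 + (s - 1 / 2) : ℂ) = s := by ring
  rw [e1]
  ring

open NumberField in
theorem result :
    -- the criterion for all families of L-functions
    (∀ (m : ℕ) (K : ℝ) (ι : Type) (N : ι → ℝ) (μ : ι → Fin m → ℂ) (α : ι → Fin m → ℕ → ℂ) (ε : ι → ℂ)
      (Λ : ι → ℂ → ℂ), 1 ≤ m → 0 ≤ K → (∀ i, StandardData K (N i) (μ i) (α i) (ε i) (Λ i)) →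
      Criterion (fun i => Lfun (μ i) (Λ i)) (fun i => xi (N i) (Λ i))
        (fun i => conductor (N i) (μ i)) 0) ∧
    -- the criterion for zeta
    Criterion (fun _ : Unit => riemannZeta) (fun _ => xiZeta) (fun _ t => 1 + |t|) 1 ∧
    -- an unconditional result for zeta
    (∀ κ : ℝ, 27 / 40 < κ → SimpleOnLine (fun _ : Unit => xiZeta) (fun _ t => 1 + |t|) κ) ∧
    -- local form: size and zero-free region near height `T` give simple zeros on the line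
    (∀ (m : ℕ) (K κ κ' : ℝ), 1 ≤ m → 0 ≤ K → 0 < κ → κ < κ' → ∃ δ R C₀ : ℝ, 0 < δ ∧
      ∀ (N : ℝ) (μ : Fin m → ℂ) (α : Fin m → ℕ → ℂ) (ε : ℂ) (Λ : ℂ → ℂ), StandardData K N μ α ε Λ →
      ∀ T : ℝ, C₀ ≤ Real.log (conductor N μ T) →
        (∀ t r : ℝ, |t - T| ≤ R → 0 ≤ r → r ≤ 1 / 2 → ‖Lfun μ Λ (1 / 2 + r + t * I)‖ ≤
          conductor N μ t ^ (max (κ - r) 0 ^ 2 / (4 * κ) + δ)) →
        (∀ s : ℂ, |s.im - T| ≤ R → 1 / 2 + κ + δ < s.re → xi N Λ s ≠ 0) →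
        ∀ (τ : ℝ) (s : ℂ), 0 < τ → τ ≤ 1 → κ' ≤ τ * Real.log (conductor N μ T) → s.im = T →
          flow (xi N Λ) τ s = 0 → s.re = 1 / 2 ∧ deriv (flow (xi N Λ) τ) s ≠ 0) ∧
    -- local form: zeros on the line near height `T` give the size and a zero-free region
    (∀ (m : ℕ) (K κ ε₀ : ℝ), 1 ≤ m → 0 ≤ K → 0 < κ → 0 < ε₀ → ∃ R C₀ : ℝ,
      ∀ (N : ℝ) (μ : Fin m → ℂ) (α : Fin m → ℕ → ℂ) (ε : ℂ) (Λ : ℂ → ℂ), StandardData K N μ α ε Λ →
      ∀ T : ℝ, C₀ ≤ Real.log (conductor N μ T) →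
        (∀ s : ℂ, |s.im - T| ≤ R → flow (xi N Λ) (κ / Real.log (conductor N μ T)) s = 0 →
          s.re = 1 / 2) →
        (∀ r : ℝ, 0 ≤ r → r ≤ 1 / 2 → ‖Lfun μ Λ (1 / 2 + r + T * I)‖ ≤
          conductor N μ T ^ (max (κ - r) 0 ^ 2 / (4 * κ) + ε₀)) ∧
        ∀ s : ℂ, s.im = T → 1 / 2 + κ + ε₀ ≤ s.re → xi N Λ s ≠ 0) ∧
    -- all primitive Dirichlet characters satisfy `StandardData`
    (∀ (q : ℕ) [NeZero q] (χ : DirichletCharacter ℂ q), 1 < q → χ.IsPrimitive →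
      ∃ μ : Fin 1 → ℂ, ‖μ 0‖ ≤ 1 ∧ StandardData 24 (q : ℝ) μ (fun _ p => χ (p : ZMod q))
        (DirichletCharacter.rootNumber χ) (DirichletCharacter.completedLFunction χ) ∧
        ∀ s, Lfun μ (DirichletCharacter.completedLFunction χ) s = DirichletCharacter.LFunction χ s) ∧
    -- all primitive ray class characters of number fields, of conductor `≠ (1)`, satisfy it
    (∀ (n : ℕ) (F : Type) [Field F] [NumberField F], Module.finrank ℚ F = n →
      ∀ (𝔣 : Ideal (𝓞 F)) (ψ : Ideal (𝓞 F) →*₀ ℂ), 𝔣 ≠ ⊤ → IsRayClassChar 𝔣 ψ →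
      ∃ (μ : Fin n → ℂ) (α : Fin n → ℕ → ℂ) (ε : ℂ) (Λ : ℂ → ℂ), (∀ j, μ j = 0 ∨ μ j = -1) ∧
        StandardData (24 * n ^ 2) (Ideal.absNorm 𝔣 * |(discr F : ℝ)|) μ α ε Λ ∧
        ∀ s : ℂ, 1 < s.re → Lfun μ Λ s =
          ∑' 𝔞 : Ideal (𝓞 F), ψ 𝔞 * ((Ideal.absNorm 𝔞 : ℕ) : ℂ) ^ (-s)) := by
  have key : ∀ {m : ℕ} {K N : ℝ} {μ : Fin m → ℂ} {α : Fin m → ℕ → ℂ} {ε : ℂ} {Λ : ℂ → ℂ},
      StandardData K N μ α ε Λ → J4H34.HF.DR K N μ α ε Λ := fun d =>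
    ⟨⟨d.one_le, d.re_le, d.norm_le, d.norm_eq, d.entire, d.euler, d.fe, d.growth⟩, d.rankin⟩
  have unkey : ∀ {m : ℕ} {K N : ℝ} {μ : Fin m → ℂ} {α : Fin m → ℕ → ℂ} {ε : ℂ} {Λ : ℂ → ℂ},
      J4H34.HF.DR K N μ α ε Λ → StandardData K N μ α ε Λ := fun d =>
    ⟨d.dat.one_le, d.dat.re_le, d.dat.norm_le, d.dat.norm_eq, d.dat.entire, d.dat.euler, d.dat.fe,
      d.dat.bdd, d.rs⟩
  refine ⟨fun m K ι N μ α ε Λ hm hK hd => ?_, ?_, fun κ hκ => ?_, fun m K κ κ' hm hK hκ hκκ => ?_,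
    fun m K κ ε₀ hm hK hκ hε₀ => ?_, fun q _ χ hq hχ => ?_, fun n F _ _ hn 𝔣 ψ htop hψ => ?_⟩
  · have hP := J4H1.LG.clsS_dr (m := m) (K := K) hm hK
    have hD : ∀ i, J4H1.LG.PD K (N i) (μ i) (Λ i) := fun i => ⟨α i, ε i, key (hd i)⟩
    refine
      { onLine_iff := fun κ hκ => ?_
        simple_iff := fun κ hκ => ?_
        half_iff := fun κ hκ => ?_
        of_bound := fun θ κ hθ hθ1 hκ h => J4H1.LG.line_to_alls hP hD hθ hθ1 hκ h
        subconvex_iff := J4H1.LG.subconvex_alls hP hD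
        zeroFree_iff := J4H1.LG.quasi_alls hP hD }
    · rw [size_zero]
      exact J4H1.LG.allon_iff J4H1.LG.allS J4H1.LG.sad J4H1.LG.prof hP.toCls hD hκ
    · rw [size_zero]
      exact J4H1.LG.alls_iff J4H1.LG.allS J4H1.LG.sad J4H1.LG.prof hP hD hκ
    · rw [size_zero]
      have hκ0 : 0 < κ := by linarith
      constructor
      · intro h
        exact ((J4H1.LG.alls_iff J4H1.LG.allS J4H1.LG.sad J4H1.LG.prof hP hD hκ0).1 h).1
      · intro h κ' hκ'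
        exact J4H1.LG.on_to_alls hP hD hκ0 hκ'
          ((J4H1.LG.allon_iff' J4H1.LG.allS J4H1.LG.sad J4H1.LG.prof hP.toCls hD hκ).2 h)
  · have hb : ∀ θ : ℝ, Bound (fun _ : Unit => riemannZeta) (fun _ t => 1 + |t|) θ ↔ J4H1.LG.LineZ θ :=
      fun θ => ⟨fun h ε hε => (h ε hε).imp fun B HB t => HB () t,
        fun h ε hε => (h ε hε).imp fun B HB _ t => HB t⟩
    rw [xiZeta_eq]
    have hone : ∀ κ : ℝ, 0 < κ → (∀ κ' : ℝ, κ < κ' → J4H1.LH.AllOn J4H1.LG.XZ J4H1.LG.CT κ') →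
        ∀ κ' : ℝ, κ < κ' → J4H1.LG.AllS' J4H1.LG.XZ J4H1.LG.CT κ' :=
      fun κ hκ h κ' hκ' => J4H1.LG.zeta_on_to_alls hκ hκ' h
    refine
      { onLine_iff := fun κ hκ => ?_
        simple_iff := fun κ hκ => ?_
        half_iff := fun κ hκ => ?_
        of_bound := fun θ κ hθ hθ1 hκ h => ?_
        subconvex_iff := ?_
        zeroFree_iff := ?_ }
    · rw [size_zeta hκ]
      exact J4H1.LG.zeta_allon_iff hκ
    · rw [size_zeta hκ]
      exact J4H1.LG.zeta_alls_iff hκ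
    · rw [size_zeta (by linarith : 0 < κ)]
      have hκ0 : 0 < κ := by linarith
      constructor
      · intro h
        exact ((J4H1.LG.zeta_alls_iff hκ0).1 h).1
      · intro h κ' hκ'
        exact hone κ hκ0 ((J4H1.LG.zeta_allon_iff' hκ).2 h) κ' hκ'
    · have h2 : 0 < 2 - 4 * θ := by linarith
      have h3 : 1 / (2 - 4 * θ) < κ := by rw [div_lt_iff₀ h2]; exact hκ
      refine hone (1 / (2 - 4 * θ)) (by positivity) (fun κ' hκ' => ?_) κ h3
      rw [div_lt_iff₀ h2] at hκ'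
      exact J4H1.LG.zeta_allon hθ hθ1 hκ' ((hb θ).1 h)
    · constructor
      · intro _
        exact ⟨7 / 10, by norm_num, J4H1.LG.zeta_alls_uncond (by norm_num)⟩
      · intro _
        obtain ⟨θ, -, hθ, h⟩ := J4H1.LG.zeta_subconvex
        exact ⟨θ, hθ, (hb θ).2 h⟩
    · constructor
      · intro h κ hκ
        have h1 : 0 < min (κ / 8) (1 / 2) := lt_min (by positivity) (by norm_num)
        have h2 : min (κ / 8) (1 / 2) ≤ κ / 8 := min_le_left _ _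
        refine hone (κ / 2) (by positivity) (fun κ' hκ' => ?_) κ (by linarith)
        exact J4H1.LG.zeta_zf h1.le (min_le_right _ _) (by linarith) (h _ h1)
      · intro h ϑ hϑ
        exact J4H1.LG.zeta_zf' (κ := ϑ / 2) hϑ (by linarith)
          (J4H1.LG.AllS'.on (h (ϑ / 2) (by positivity)))
  · rw [xiZeta_eq]
    exact J4H1.LG.zeta_alls_uncond hκ
  · obtain ⟨δ, R, C₀, hδ, H⟩ := J4H1.LG.local_allx' J4H1.LG.allS.net J4H1.LG.sad J4H1.LG.prof
      (J4H1.LG.clsS_dr (m := m) (K := K) hm hK) hκ hκκ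
    exact ⟨δ, R, C₀, hδ, fun N μ α ε Λ d => H N μ Λ ⟨α, ε, key d⟩⟩
  · obtain ⟨R, C₀, H⟩ := J4H1.LG.local_back J4H1.LG.allS (J4H1.LG.cls_dr (m := m) (K := K) hm hK) hκ hε₀
    exact ⟨R, C₀, fun N μ α ε Λ d => H N μ Λ ⟨α, ε, key d⟩⟩
  · refine ⟨_, H353.F.aa_norm_le χ, unkey (J4H34.HF.dr_dir hq hχ), fun s => ?_⟩
    rw [DirichletCharacter.LFunction_eq_completed_div_gammaFactor χ s (Or.inr (by omega)),
      H370.DL.gammaFactor_eq]
    simp [Lfun, div_eq_mul_inv]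
  · subst hn
    have hp : Pool.Agent.Y773.G.IsPrimChar F 𝔣 ψ := ⟨hψ.ne_bot, hψ.supp, hψ.ray, hψ.prim⟩
    obtain ⟨e, he⟩ := J4H34.AR.isModChar hp htop
    obtain ⟨-, μ, α, ε, Λ, -, -, hd, -, -, -, -, -, hμ, hΛ⟩ := J4H34.AR.ray_dr2 hp he
    have hc : J4H34.AR.cnd 𝔣 = (Ideal.absNorm 𝔣 : ℝ) * |(NumberField.discr F : ℝ)| := by
      rw [J4H34.AR.cnd_eq]
      push_cast
      rw [Nat.cast_natAbs]
      push_cast
      rfl
    rw [hc] at hd
    refine ⟨μ, α, ε, Λ, hμ, unkey hd, fun s hs => ?_⟩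
    have hG : ∀ j, Gammaℝ (s - μ j) ≠ 0 := fun j => by
      refine Gammaℝ_ne_zero_of_re_pos ?_
      rcases hμ j with h | h <;> rw [h] <;> simp <;> linarith
    unfold Lfun
    rw [hΛ s hs, Finset.prod_inv_distrib]
    have h1 : (∏ j, Gammaℝ (s - μ j)) ≠ 0 := Finset.prod_ne_zero_iff.2 fun j _ => hG j
    field_simp
    rfl

end Pool.Agent.Results.MP_52e316_nt.ThresholdOfTheFlow
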